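import Pool.Agent.Helper80.Stack.Goals

set_option autoImplicit false

/-!
# Assembly: from level drawings to stack layouts
-/

namespace Pool.Agent.Helper80.Stk

open Classical

noncomputable section

/-- Injective positions in classes with at most three elements. -/
lemma exists_idx {V I : Type} [Fintype V] (f : V → I)
    (h : ∀ y, (Finset.univ.filter (fun v => f v = y)).card ≤ 3) :
    ∃ idx : V → Fin 3, ∀ u v, f u = f v → idx u = idx v → u = v := by
  have h1 : ∀ y, Nonempty ({v // f v = y} ↪ Fin 3) := by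
    intro y
    apply Function.Embedding.nonempty_of_card_le
    rw [Fintype.card_subtype, Fintype.card_fin]
    exact h y
  have e : ∀ y, {v // f v = y} ↪ Fin 3 := fun y => (h1 y).some
  let e' : I → V → Fin 3 := fun y v => if h : f v = y then e y ⟨v, h⟩ else 0
  have he' : ∀ y v (h : f v = y), e' y v = e y ⟨v, h⟩ := fun y v h => dif_pos h
  refine ⟨fun v => e' (f v) v, ?_⟩
  intro u v huv he
  dsimp only at he
  rw [huv, he' (f v) u huv, he' (f v) v rfl] at he
  exact congrArg Subtype.val ((e (f v)).injective he)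

theorem hasLD_of (hM : StmtMap) (hT : StmtTri) (hD : StmtDecomp) (hB : StmtBfs)
    (V : Type) [Fintype V] (E : V → V → Prop) (L : LevDraw V E) (hc : Conn V E) :
    HasLD V E := by
  by_cases hcard : Fintype.card V ≤ 3
  · obtain ⟨e⟩ : Nonempty (V ↪ Fin 3) := by
      apply Function.Embedding.nonempty_of_card_le
      rw [Fintype.card_fin]; exact hcard
    refine ⟨1, fun _ => ∅, fun _ => 0, fun _ => 0, e, ?_, fun _ => Nat.one_pos,
      fun u v _ _ h => e.injective h, fun u v _ => ⟨by simp, Or.inl rfl⟩⟩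
    refine ⟨fun n m hm => absurd hm (Finset.notMem_empty m), fun n => by simp,
      fun n m hm => absurd hm (Finset.notMem_empty m)⟩
  · have hne : Nonempty V := by
      rw [← Fintype.card_pos_iff]; omega
    have h1 : ∀ v, ∃ w, E v w ∨ E w v := by
      intro v
      by_contra hcon
      push Not at hcon
      have := hc {v} (Set.singleton_nonempty v) (by
        intro a b hab
        simp only [Set.mem_singleton_iff]
        constructor
        · rintro rfl; exact absurd hab (hcon b).1
        · rintro rfl; exact absurd hab (hcon a).2)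
      have h2 : Fintype.card V ≤ 1 := by
        rw [Fintype.card_le_one_iff]
        intro a b
        have ha : a ∈ ({v} : Set V) := by rw [this]; trivial
        have hb : b ∈ ({v} : Set V) := by rw [this]; trivial
        simp only [Set.mem_singleton_iff] at ha hb
        rw [ha, hb]
      omega
    have h2 : ∀ a b, E a b → ∃ c, (E a c ∧ c ≠ b) ∨ E c a ∨ (E c b ∧ c ≠ a) ∨ E b c := by
      intro a b hab
      by_contra hcon
      push Not at hcon
      have := hc {a, b} (Set.insert_nonempty a {b}) (by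
        intro u w huw
        simp only [Set.mem_insert_iff, Set.mem_singleton_iff]
        constructor
        · rintro (rfl | rfl)
          · right; exact (hcon w).1 huw
          · exact absurd huw (hcon w).2.2.2
        · rintro (rfl | rfl)
          · exact absurd huw (hcon u).2.1
          · left; exact (hcon u).2.2.1 huw)
      have h3 : (Finset.univ : Finset V) ⊆ {a, b} := by
        intro v _
        have hv : v ∈ ({a, b} : Set V) := by rw [this]; trivial
        simpa using hv
      have h4 := Finset.card_le_card h3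
      have h5 : ({a, b} : Finset V).card ≤ 2 := Finset.card_le_two
      rw [Finset.card_univ] at h4
      omega
    obtain ⟨P, hPo, hPα⟩ := hM V E L h1 h2
    obtain ⟨r⟩ := hne
    obtain ⟨j, hj1, hj2⟩ := hB V E r hc
    obtain ⟨W, Tr, iW, iT, K, ι, hι, hht, hadj⟩ := hT V (Dt V E) P r j (by
      intro v hv
      obtain ⟨w, h3 | h3, h4⟩ := hj1 v hv
      · refine ⟨(⟨(v, w), h3⟩, true), ?_, ?_⟩
        · rw [hPo]; rfl
        · rw [hPα, hPo]; exact h4
      · refine ⟨(⟨(w, v), h3⟩, false), ?_, ?_⟩
        · rw [hPo]; rfl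
        · rw [hPα, hPo]; exact h4)
    obtain ⟨Nm, nd, hN, hNadj, hcardN⟩ := hD W Tr K
    obtain ⟨idx, hidx⟩ := exists_idx (fun v : V => (nd (ι v), j v)) (by
      rintro ⟨n, h⟩
      refine le_trans (Finset.card_le_card_of_injOn ι ?_ hι.injOn) (hcardN n h)
      intro v hv
      simp only [Finset.coe_filter, Finset.mem_univ, true_and, Set.mem_ofPred_eq,
        Prod.mk.injEq] at hv ⊢
      exact ⟨hv.1, by rw [hht]; exact hv.2⟩)
    refine ⟨(Finset.univ.sup (fun v => nd (ι v))) + 1, Nm, fun v => nd (ι v), fun v => (j v : ℤ),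
      idx, hN, ?_, ?_, ?_⟩
    · intro v
      exact Nat.lt_succ_of_le (Finset.le_sup (f := fun v => nd (ι v)) (Finset.mem_univ v))
    · intro u v h3 h4 h5
      apply hidx u v _ h5
      simp only [Prod.mk.injEq]
      have h4' : ((j u : ℕ) : ℤ) = ((j v : ℕ) : ℤ) := h4
      exact ⟨h3, by exact_mod_cast h4'⟩
    · intro u v huv
      constructor
      · obtain ⟨h3, h4⟩ := hj2 u v huv
        change |((j u : ℕ) : ℤ) - ((j v : ℕ) : ℤ)| ≤ 1
        rw [abs_le]
        constructor <;> omega
      · obtain ⟨t, h3, h4⟩ := hadj (⟨(u, v), huv⟩, true)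
        rw [hPo] at h3
        rw [hPα, hPo] at h4
        exact hNadj t _ h3 _ h4

/-- Restriction of a level drawing. -/
def LevDraw.restrict {V : Type} {E : V → V → Prop} (L : LevDraw V E) (S : Set V) :
    LevDraw S (fun a b => E a.1 b.1) where
  lev v := L.lev v.1
  x v := L.x v.1
  X a b i := L.X a.1 b.1 i
  lev_lt a b h := L.lev_lt _ _ h
  X_bot a b h := L.X_bot _ _ h
  X_top a b h := L.X_top _ _ h
  x_inj a b h h' := Subtype.ext (L.x_inj _ _ h h')
  X_vert a b v h h1 h2 := L.X_vert _ _ _ h h1 h2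
  X_edge a b c d i h1 h2 h3 h4 h5 h6 h7 := by
    obtain ⟨h8, h9⟩ := L.X_edge _ _ _ _ i h1 h2 h3 h4 h5 h6 h7
    exact ⟨Subtype.ext h8, Subtype.ext h9⟩
  mono a b c d i h1 h2 h3 h4 h5 h6 h7 := L.mono _ _ _ _ i h1 h2 h3 h4 h5 h6 h7

lemma Good.mono {k k' : ℕ} (hk : k ≤ k') {V : Type} {E : V → V → Prop} (h : Good k V E) :
    Good k' V E := by
  obtain ⟨σ, col, h1, h2, h3⟩ := h
  refine ⟨σ, fun a b => Fin.castLE hk (col a b), h1, h2, ?_⟩
  intro a b x y hab hxy he
  exact h3 a b x y hab hxy (Fin.castLE_injective hk he)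

theorem good_of (hF : StmtFromLD) (hC : StmtComp) (hM : StmtMap) (hT : StmtTri) (hD : StmtDecomp)
    (hB : StmtBfs) (c : ℕ) : ∃ k : ℕ, ∀ (V : Type) [Fintype V] (E : V → V → Prop),
      Nonempty (LevDraw V E) → (∃ ρ : V → ℤ, ∀ a b, E a b →
        Odd (ρ b - ρ a) ∧ 1 ≤ ρ b - ρ a ∧ ρ b - ρ a ≤ c) → Good k V E := by
  obtain ⟨k, hk⟩ := hF c
  refine ⟨k + 1, ?_⟩
  rintro V _ E ⟨L⟩ ⟨ρ, hρ⟩
  apply hC (k + 1) V E (Nat.succ_pos k)
  intro S _ hS
  apply Good.mono (Nat.le_succ k)
  apply hk S (fun a b => E a.1 b.1) (fun v => ρ v.1) (fun a b h => hρ _ _ h)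
  exact hasLD_of hM hT hD hB S _ (L.restrict S) hS

end

end Pool.Agent.Helper80.Stk
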