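import Pool.Agent.Helper80.Stack.Defs

set_option autoImplicit false

/-!
# Basic facts about chains
-/

namespace Pool.Agent.Helper80.Stk

open Classical

variable {W Tr : Type}

lemma z2 (a : ZMod 2) : a + a = 0 := CharTwo.add_self_eq_zero a

lemma z2' (a : ZMod 2) : a = 0 ∨ a = 1 := by
  revert a; decide

lemma ch_add_self (C : W → W → ZMod 2) : C + C = 0 := by
  funext u v; exact z2 _

lemma edg_comm (x y : W) : edg x y = edg y x := by
  funext u v
  unfold edg
  congr 1
  apply propext
  constructor
  · rintro ⟨h1, h2 | h2⟩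
    · exact ⟨h1.symm, Or.inr h2⟩
    · exact ⟨h1.symm, Or.inl h2⟩
  · rintro ⟨h1, h2 | h2⟩
    · exact ⟨h1.symm, Or.inr h2⟩
    · exact ⟨h1.symm, Or.inl h2⟩

lemma edg_symm (x y u v : W) : edg x y u v = edg x y v u := by
  unfold edg
  congr 1
  apply propext
  tauto

lemma edg_diag (x y u : W) : edg x y u u = 0 := by
  unfold edg
  rw [if_neg]
  rintro ⟨h1, ⟨h2, h3⟩ | ⟨h2, h3⟩⟩
  · exact h1 (h2 ▸ h3)
  · exact h1 (h3 ▸ h2)

@[simp] lemma edg_self (x : W) : edg x x = 0 := by
  funext u v
  unfold edg
  simp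

lemma edg_apply {x y : W} (h : x ≠ y) : edg x y x y = 1 := by
  unfold edg; simp [h]

lemma edg_apply' {x y : W} (h : x ≠ y) : edg x y y x = 1 := by
  unfold edg; simp [h]

lemma edg_ne {x y u v : W} (h : edg x y u v ≠ 0) : x ≠ y ∧ ((u = x ∧ v = y) ∨ (u = y ∧ v = x)) := by
  unfold edg at h
  by_contra h'
  rw [if_neg h'] at h
  exact h rfl

@[simp] lemma pth_nil : pth ([] : List W) = 0 := rfl
@[simp] lemma pth_single (x : W) : pth [x] = 0 := rfl
lemma pth_cons (x y : W) (l : List W) : pth (x :: y :: l) = edg x y + pth (y :: l) := rfl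
@[simp] lemma pth_pair (x y : W) : pth [x, y] = edg x y := by
  rw [pth_cons]; simp

/-- Splitting a walk at a vertex. -/
lemma pth_append (l₁ l₂ : List W) (v : W) :
    pth (l₁ ++ v :: l₂) = pth (l₁ ++ [v]) + pth (v :: l₂) := by
  induction l₁ with
  | nil => simp
  | cons x l ih =>
    cases l with
    | nil => simp [pth_cons]
    | cons y l =>
      simp only [List.cons_append] at ih ⊢
      rw [pth_cons, pth_cons, ih]
      abel

lemma pth_reverse (l : List W) : pth l.reverse = pth l := by
  induction l with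
  | nil => rfl
  | cons x l ih =>
    cases l with
    | nil => rfl
    | cons y l =>
      have : (x :: y :: l).reverse = l.reverse ++ y :: [x] := by simp
      have h2 : (y :: l).reverse = l.reverse ++ [y] := by simp
      rw [this, pth_append, pth_pair, ← h2, ih, pth_cons, edg_comm y x]
      abel

lemma cyc_cons (x : W) (l : List W) : cyc (x :: l) = pth (x :: (l ++ [x])) := rfl

/-- The closed walk `x :: (l₁ ++ y :: l₂)` as a sum of two walks. -/
lemma cyc_split (x y : W) (l₁ l₂ : List W) :
    cyc (x :: (l₁ ++ y :: l₂)) = pth (x :: (l₁ ++ [y])) + pth (y :: (l₂ ++ [x])) := by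
  rw [cyc_cons]
  have : x :: (l₁ ++ y :: l₂ ++ [x]) = (x :: l₁) ++ y :: (l₂ ++ [x]) := by simp
  rw [this, pth_append]
  simp

lemma cyc_rotate (l₁ l₂ : List W) : cyc (l₁ ++ l₂) = cyc (l₂ ++ l₁) := by
  cases l₁ with
  | nil => simp
  | cons x l₁ =>
    cases l₂ with
    | nil => simp
    | cons y l₂ =>
      rw [List.cons_append, cyc_split, List.cons_append, cyc_split, add_comm]

lemma pth_symm (l : List W) (u v : W) : pth l u v = pth l v u := by
  induction l with
  | nil => rfl
  | cons x l ih =>
    cases l with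
    | nil => rfl
    | cons y l =>
      rw [pth_cons]
      simp only [Pi.add_apply]
      rw [edg_symm, ih]

lemma pth_diag (l : List W) (u : W) : pth l u u = 0 := by
  induction l with
  | nil => rfl
  | cons x l ih =>
    cases l with
    | nil => rfl
    | cons y l =>
      rw [pth_cons]
      simp only [Pi.add_apply]
      rw [edg_diag, ih, add_zero]

lemma cyc_symm (l : List W) (u v : W) : cyc l u v = cyc l v u := by
  cases l with
  | nil => rfl
  | cons x l => exact pth_symm _ u v

lemma cyc_diag (l : List W) (u : W) : cyc l u u = 0 := by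
  cases l with
  | nil => rfl
  | cons x l => exact pth_diag _ u

/-- An edge of a walk is a consecutive pair of its vertices. -/
lemma pth_ne {l : List W} {u v : W} (h : pth l u v ≠ 0) :
    ∃ l₁ l₂ : List W, l = l₁ ++ u :: v :: l₂ ∨ l = l₁ ++ v :: u :: l₂ := by
  induction l with
  | nil => exact absurd rfl h
  | cons x l ih =>
    cases l with
    | nil => exact absurd rfl h
    | cons y l =>
      rw [pth_cons] at h
      simp only [Pi.add_apply] at h
      by_cases h1 : edg x y u v = 0
      · rw [h1, zero_add] at h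
        obtain ⟨l₁, l₂, h2 | h2⟩ := ih h
        · exact ⟨x :: l₁, l₂, Or.inl (by rw [h2]; rfl)⟩
        · exact ⟨x :: l₁, l₂, Or.inr (by rw [h2]; rfl)⟩
      · obtain ⟨_, ⟨h2, h3⟩ | ⟨h2, h3⟩⟩ := edg_ne h1
        · exact ⟨[], l, Or.inl (by rw [h2, h3]; rfl)⟩
        · exact ⟨[], l, Or.inr (by rw [h2, h3]; rfl)⟩

lemma pth_mem {l : List W} {u v : W} (h : pth l u v ≠ 0) : u ∈ l ∧ v ∈ l := by
  obtain ⟨l₁, l₂, h | h⟩ := pth_ne h <;> subst h <;> simp

lemma cyc_mem {l : List W} {u v : W} (h : cyc l u v ≠ 0) : u ∈ l ∧ v ∈ l := by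
  cases l with
  | nil => exact absurd rfl h
  | cons x l =>
    have := pth_mem h
    simp only [List.mem_cons, List.mem_append, List.not_mem_nil, or_false] at this ⊢
    tauto

lemma pth_zero_left {l : List W} {u : W} (v : W) (h : u ∉ l) : pth l u v = 0 := by
  by_contra h'
  exact h (pth_mem h').1

lemma pth_zero_right {l : List W} (u : W) {v : W} (h : v ∉ l) : pth l u v = 0 := by
  by_contra h'
  exact h (pth_mem h').2

lemma cyc_zero_left {l : List W} {u : W} (v : W) (h : u ∉ l) : cyc l u v = 0 := by
  by_contra h'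
  exact h (cyc_mem h').1

lemma cyc_zero_right {l : List W} (u : W) {v : W} (h : v ∉ l) : cyc l u v = 0 := by
  by_contra h'
  exact h (cyc_mem h').2

/-- Degrees of an edge. -/
lemma edg_sum [Fintype W] (x y u : W) :
    ∑ v, edg x y u v = (if u = x then 1 else 0) + (if u = y then 1 else 0) := by
  by_cases hxy : x = y
  · subst hxy
    rw [edg_self]
    simp only [Pi.zero_apply, Finset.sum_const_zero]
    exact (z2 _).symm
  · have h1 : ∀ v, edg x y u v = (if u = x then (if v = y then 1 else 0) else 0) +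
        (if u = y then (if v = x then 1 else 0) else 0) := by
      intro v
      unfold edg
      by_cases h1 : u = x
      · have h2 : u ≠ y := by rw [h1]; exact hxy
        by_cases h3 : v = y
        · simp [h1, h3, hxy]
        · have h4 : ¬ (x ≠ y ∧ (u = x ∧ v = y ∨ u = y ∧ v = x)) := by tauto
          rw [if_neg h4, if_pos h1, if_neg h3, if_neg h2, add_zero]
      · by_cases h2 : u = y
        · by_cases h3 : v = x
          · have h4 : (x ≠ y ∧ (u = x ∧ v = y ∨ u = y ∧ v = x)) := ⟨hxy, Or.inr ⟨h2, h3⟩⟩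
            rw [if_pos h4, if_neg h1, if_pos h2, if_pos h3, zero_add]
          · have h4 : ¬ (x ≠ y ∧ (u = x ∧ v = y ∨ u = y ∧ v = x)) := by tauto
            rw [if_neg h4, if_neg h1, if_pos h2, if_neg h3, zero_add]
        · have h4 : ¬ (x ≠ y ∧ (u = x ∧ v = y ∨ u = y ∧ v = x)) := by tauto
          rw [if_neg h4, if_neg h1, if_neg h2, zero_add]
    simp_rw [h1, Finset.sum_add_distrib]
    congr 1
    · by_cases h : u = x <;> simp [h]
    · by_cases h : u = y <;> simp [h]

/-- Degrees of a walk. -/
lemma pth_sum [Fintype W] (x : W) (l : List W) (u : W) :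
    ∑ v, pth (x :: l) u v = (if u = x then 1 else 0) +
      (if u = (x :: l).getLast (by simp) then 1 else 0) := by
  induction l generalizing x with
  | nil =>
    simp only [pth_single, Pi.zero_apply, Finset.sum_const_zero, List.getLast_singleton]
    exact (z2 _).symm
  | cons y l ih =>
    rw [pth_cons]
    simp only [Pi.add_apply, Finset.sum_add_distrib]
    rw [edg_sum, ih]
    have h1 : (x :: y :: l).getLast (by simp) = (y :: l).getLast (by simp) :=
      List.getLast_cons (by simp)
    rw [h1]
    generalize (if u = (y :: l).getLast (by simp) then (1 : ZMod 2) else 0) = q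
    have := z2 (if u = y then (1 : ZMod 2) else 0)
    rw [add_assoc, ← add_assoc _ _ q, this, zero_add]

/-- A closed walk is even at every vertex. -/
lemma cyc_sum [Fintype W] (l : List W) (u : W) : ∑ v, cyc l u v = 0 := by
  cases l with
  | nil => simp [cyc]
  | cons x l =>
    rw [cyc_cons, pth_sum]
    have : (x :: (l ++ [x])).getLast (by simp) = x := by simp
    rw [this]
    exact z2 _

/-! ### Boundaries -/

variable (vt : Tr → Finset W)

lemma bd_symm (S : Finset Tr) (u v : W) : bd vt S u v = bd vt S v u := by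
  unfold bd
  by_cases h : u = v
  · subst h; rfl
  · rw [if_neg h, if_neg (Ne.symm h)]
    congr 3
    funext t
    exact propext and_comm

lemma bd_diag (S : Finset Tr) (u : W) : bd vt S u u = 0 := by
  unfold bd; simp

/-- Boundary as a sum. -/
lemma bd_eq_sum (S : Finset Tr) (u v : W) :
    bd vt S u v = ∑ t ∈ S, (if u ≠ v ∧ u ∈ vt t ∧ v ∈ vt t then (1 : ZMod 2) else 0) := by
  unfold bd
  by_cases h : u = v
  · simp [h]
  · rw [if_neg h, Finset.card_filter]
    push_cast
    apply Finset.sum_congr rfl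
    intro t _
    simp [h]

lemma bd_empty : bd vt (∅ : Finset Tr) = 0 := by
  funext u v
  rw [bd_eq_sum]; simp

lemma bd_union {S T : Finset Tr} (h : Disjoint S T) : bd vt (S ∪ T) = bd vt S + bd vt T := by
  funext u v
  simp only [Pi.add_apply]
  rw [bd_eq_sum, bd_eq_sum, bd_eq_sum, Finset.sum_union h]

/-- Boundary of a difference. -/
lemma bd_sdiff {S T : Finset Tr} (h : T ⊆ S) : bd vt (S \ T) = bd vt S + bd vt T := by
  have h1 : bd vt S = bd vt (S \ T) + bd vt T := by
    rw [← bd_union vt Finset.sdiff_disjoint, Finset.sdiff_union_of_subset h]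
  rw [h1]
  funext u v
  simp only [Pi.add_apply]
  rw [add_assoc, z2, add_zero]

/-- Boundary of a symmetric difference. -/
lemma bd_symmDiff (S T : Finset Tr) : bd vt (symmDiff S T) = bd vt S + bd vt T := by
  have h1 : symmDiff S T = (S \ (S ∩ T)) ∪ (T \ (S ∩ T)) := by
    ext t
    simp only [Finset.mem_symmDiff, Finset.mem_union, Finset.mem_sdiff, Finset.mem_inter]
    tauto
  have h2 : Disjoint (S \ (S ∩ T)) (T \ (S ∩ T)) := by
    rw [Finset.disjoint_left]
    intro t
    simp only [Finset.mem_sdiff, Finset.mem_inter]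
    tauto
  rw [h1, bd_union vt h2, bd_sdiff vt Finset.inter_subset_left, bd_sdiff vt Finset.inter_subset_right]
  funext u v
  simp only [Pi.add_apply]
  have := z2 (bd vt (S ∩ T) u v)
  calc _ = bd vt S u v + bd vt T u v + (bd vt (S ∩ T) u v + bd vt (S ∩ T) u v) := by ring
    _ = _ := by rw [this, add_zero]

/-- Boundary of one triangle. -/
lemma bd_single {t : Tr} {x y z : W} (h : vt t = {x, y, z}) (hxy : x ≠ y) (hyz : y ≠ z)
    (hxz : x ≠ z) : bd vt {t} = edg x y + edg y z + edg z x := by
  funext u v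
  rw [bd_eq_sum, Finset.sum_singleton, h]
  simp only [Pi.add_apply, edg, Finset.mem_insert, Finset.mem_singleton]
  by_cases hu : u = x ∨ u = y ∨ u = z
  · by_cases hv : v = x ∨ v = y ∨ v = z
    · rcases hu with rfl | rfl | rfl <;> rcases hv with rfl | rfl | rfl <;>
        simp [hxy, hyz, hxz, hxy.symm, hyz.symm, hxz.symm]
    · simp only [hv, and_false, if_false]
      push Not at hv
      simp [hv.1, hv.2.1, hv.2.2]
  · simp only [hu, false_and, and_false, if_false]
    push Not at hu
    simp [hu.1, hu.2.1, hu.2.2]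

/-- The boundary of a set of triangles is even at every vertex. -/
lemma bd_sum [Fintype W] (h3 : ∀ t, (vt t).card = 3) (S : Finset Tr) (u : W) :
    ∑ v, bd vt S u v = 0 := by
  simp_rw [bd_eq_sum]
  rw [Finset.sum_comm]
  apply Finset.sum_eq_zero
  intro t _
  obtain ⟨x, y, z, hxy, hxz, hyz, ht⟩ := Finset.card_eq_three.mp (h3 t)
  have h1 : ∀ v, (if u ≠ v ∧ u ∈ vt t ∧ v ∈ vt t then (1 : ZMod 2) else 0) = bd vt {t} u v := by
    intro v
    rw [bd_eq_sum, Finset.sum_singleton]
  simp_rw [h1, bd_single vt ht hxy hyz hxz]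
  simp only [Pi.add_apply, Finset.sum_add_distrib]
  rw [edg_sum, edg_sum, edg_sum]
  generalize (if u = x then (1 : ZMod 2) else 0) = a
  generalize (if u = y then (1 : ZMod 2) else 0) = b
  generalize (if u = z then (1 : ZMod 2) else 0) = c
  calc a + b + (b + c) + (c + a) = (a + a) + (b + b) + (c + c) := by ring
    _ = 0 := by rw [z2 a, z2 b, z2 c]; simp

end Pool.Agent.Helper80.Stk
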