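import Mathlib

set_option autoImplicit false

/-!
# Stack layouts of graded planar posets: definitions
-/

namespace Pool.Agent.Helper80.Stk

open Classical

noncomputable section

/-- The digraph `E` on `V` has a `k`-stack layout: an injective numbering `σ` of the vertices
increasing along the edges, and a colouring of the edges with `k` colours such that no two edges
of the same colour cross. -/
def Good (k : ℕ) (V : Type) (E : V → V → Prop) : Prop :=
  ∃ (σ : V → ℕ) (col : V → V → Fin k), Function.Injective σ ∧ (∀ a b, E a b → σ a < σ b) ∧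
    ∀ a b x y, E a b → E x y → col a b = col x y → ¬ (σ a < σ x ∧ σ x < σ b ∧ σ b < σ y)

/-- Adjacent or equal nodes of a node structure `Nm`. -/
def NAdj (Nm : ℕ → Finset ℕ) (m n : ℕ) : Prop := m = n ∨ m ∈ Nm n ∨ n ∈ Nm m

/-- The conditions on a node structure: earlier neighbours, at most `k` of them, forming a
clique. -/
def NStr (k : ℕ) (Nm : ℕ → Finset ℕ) : Prop :=
  (∀ n, ∀ m ∈ Nm n, m < n) ∧ (∀ n, (Nm n).card ≤ k) ∧
    (∀ n, ∀ a ∈ Nm n, ∀ b ∈ Nm n, NAdj Nm a b)

/-- A layered decomposition of the digraph `E`: a node structure with at most three earlier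
neighbours, nodes `nd v < M`, layers `j v`, positions `idx v` in the node and layer. -/
def HasLD (V : Type) (E : V → V → Prop) : Prop :=
  ∃ (M : ℕ) (Nm : ℕ → Finset ℕ) (nd : V → ℕ) (j : V → ℤ) (idx : V → Fin 3),
    NStr 3 Nm ∧ (∀ v, nd v < M) ∧
    (∀ u v, nd u = nd v → j u = j v → idx u = idx v → u = v) ∧
    ∀ u v, E u v → |j u - j v| ≤ 1 ∧ NAdj Nm (nd u) (nd v)

/-! ## Level drawings -/

/-- A level drawing of the digraph `E`: every vertex `v` has a level `lev v` and an abscissa
`x v`; an edge `(a,b)` has an abscissa `X a b i` at every level `i` from `lev a` to `lev b`. -/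
structure LevDraw (V : Type) (E : V → V → Prop) where
  lev : V → ℕ
  x : V → ℝ
  X : V → V → ℕ → ℝ
  lev_lt : ∀ a b, E a b → lev a < lev b
  X_bot : ∀ a b, E a b → X a b (lev a) = x a
  X_top : ∀ a b, E a b → X a b (lev b) = x b
  x_inj : ∀ a b, lev a = lev b → x a = x b → a = b
  X_vert : ∀ a b v, E a b → lev a < lev v → lev v < lev b → X a b (lev v) ≠ x v
  X_edge : ∀ a b c d i, E a b → E c d → lev a < i → i < lev b → lev c < i → i < lev d →
    X a b i = X c d i → a = c ∧ b = d
  mono : ∀ a b c d i, E a b → E c d → lev a ≤ i → i < lev b → lev c ≤ i → i < lev d →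
    X a b i < X c d i → X a b (i + 1) ≤ X c d (i + 1)

/-- The type of edges of the digraph `E`. -/
abbrev Ed (V : Type) (E : V → V → Prop) : Type := {p : V × V // E p.1 p.2}

/-- The abscissa of an edge one level above its tail. -/
def LevDraw.up {V : Type} {E : V → V → Prop} (L : LevDraw V E) (e : Ed V E) : ℝ :=
  L.X e.1.1 e.1.2 (L.lev e.1.1 + 1)

/-- The abscissa of an edge one level below its head. -/
def LevDraw.dn {V : Type} {E : V → V → Prop} (L : LevDraw V E) (e : Ed V E) : ℝ :=
  L.X e.1.1 e.1.2 (L.lev e.1.2 - 1)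

/-! ## Plane maps given by darts -/

/-- A plane map with simple underlying graph, given by darts. `o d` is the origin of the dart
`d`, `α d` the reversed dart, `φ d` the next dart along the face. `exact` says that every
`ZMod 2`-chain of edges which is even at every vertex is a sum of face boundaries. -/
structure PMap (V D : Type) [Fintype D] where
  o : D → V
  α : D → D
  φ : Equiv.Perm D
  αα : ∀ d, α (α d) = d
  oφ : ∀ d, o (φ d) = o (α d)
  noloop : ∀ d, o (α d) ≠ o d
  simple : ∀ d d', o d = o d' → o (α d) = o (α d') → d = d'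
  rot : ∀ f : D → Prop, (∀ d, f (φ (α d)) ↔ f d) → ∀ d d', o d = o d' → (f d ↔ f d')
  surj : ∀ v, ∃ d, o d = v
  φφ : ∀ d, φ (φ d) ≠ d
  exact : ∀ c : D → ZMod 2, (∀ d, c (α d) = c d) → (∀ v, ∑ d, (if o d = v then c d else 0) = 0) →
    ∃ b : D → ZMod 2, (∀ d, b (φ d) = b d) ∧ ∀ d, b d + b (α d) = c d

/-! ## Chains -/

/-- Indicator chain of the pair `{x,y}` (zero when `x = y`). -/
def edg {W : Type} (x y : W) : W → W → ZMod 2 := fun u v =>
  if x ≠ y ∧ ((u = x ∧ v = y) ∨ (u = y ∧ v = x)) then 1 else 0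

/-- Chain of a walk given by its list of vertices. -/
def pth {W : Type} : List W → (W → W → ZMod 2)
  | [] => 0
  | [_] => 0
  | x :: y :: l => edg x y + pth (y :: l)

/-- Chain of a closed walk given by its list of vertices. -/
def cyc {W : Type} : List W → (W → W → ZMod 2)
  | [] => 0
  | x :: l => pth (x :: (l ++ [x]))

/-- The boundary chain of a set `S` of triangles. -/
def bd {W Tr : Type} (vt : Tr → Finset W) (S : Finset Tr) : W → W → ZMod 2 := fun u v =>
  if u = v then 0 else ((S.filter (fun t => u ∈ vt t ∧ v ∈ vt t)).card : ZMod 2)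

/-- An (abstract) triangulated sphere with an outer triangle `t0` and a parent function. -/
structure SC (W Tr : Type) [Fintype W] [Fintype Tr] where
  vt : Tr → Finset W
  card3 : ∀ t, (vt t).card = 3
  two : ∀ u v, u ≠ v → (Finset.univ.filter (fun t => u ∈ vt t ∧ v ∈ vt t)).card = 0 ∨
    (Finset.univ.filter (fun t => u ∈ vt t ∧ v ∈ vt t)).card = 2
  t0 : Tr
  fill : ∀ C : W → W → ZMod 2, (∀ u v, C u v = C v u) → (∀ u, C u u = 0) →
    (∀ u v, C u v ≠ 0 → ∃ t, u ∈ vt t ∧ v ∈ vt t) → (∀ u, ∑ v, C u v = 0) →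
    ∃ R : Finset Tr, t0 ∉ R ∧ bd vt R = C
  uniq : ∀ R : Finset Tr, t0 ∉ R → bd vt R = 0 → R = ∅
  link : ∀ (v : W) (f : Tr → Prop), (∀ t t', v ∈ vt t → v ∈ vt t' →
    (∃ w, w ≠ v ∧ w ∈ vt t ∧ w ∈ vt t') → (f t ↔ f t')) →
    ∀ t t', v ∈ vt t → v ∈ vt t' → (f t ↔ f t')
  cov : ∀ v, ∃ t, v ∈ vt t
  par : W → W
  ht : W → ℕ
  par_ht : ∀ v, v ∉ vt t0 → ht (par v) < ht v
  par_edge : ∀ v, v ∉ vt t0 → ∃ t, v ∈ vt t ∧ par v ∈ vt t

variable {W Tr : Type} [Fintype W] [Fintype Tr]

/-- A region: a set `S` of triangles bounded by the simple closed walk `a ++ b ++ c`, with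
non-empty arcs `a`, `b`, `c`. -/
structure Reg (K : SC W Tr) (S : Finset Tr) (a b c : List W) : Prop where
  t0 : K.t0 ∉ S
  nodup : (a ++ b ++ c).Nodup
  ha : a ≠ []
  hb : b ≠ []
  hc : c ≠ []
  bd : bd K.vt S = cyc (a ++ b ++ c)

end

end Pool.Agent.Helper80.Stk
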