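import Pool.Agent.Helper80.Stack.SCBasic

set_option autoImplicit false

/-!
# Statements of the packets for MP_d6b153_co (graded planar posets)
-/

namespace Pool.Agent.Helper80.Stk

open Classical

noncomputable section

/-! ## Linear layouts -/

/-- BLOCK: from a layering and an order without same-coloured nestings between equal pairs of
layers to a stack layout. -/
def StmtBlock : Prop := ∀ c k0 : ℕ, ∃ k : ℕ, ∀ (V : Type) [Finite V] (E : V → V → Prop)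
    (ρ j : V → ℤ) (σ : V → ℕ) (col : V → V → Fin k0),
  (∀ a b, E a b → Odd (ρ b - ρ a) ∧ 1 ≤ ρ b - ρ a ∧ ρ b - ρ a ≤ c) →
  (∀ a b, E a b → |j a - j b| ≤ 1) →
  (∀ a b, j a = j b → σ a = σ b → a = b) →
  (∀ a b x y, E a b → E x y → col a b = col x y → j a = j x → j b = j y →
    ¬ (σ a < σ x ∧ σ y < σ b)) →
  Good k V E

/-- QUEUE: node structures with at most `k` earlier neighbours have bounded queue number. -/
def StmtQueue : Prop := ∀ k : ℕ, ∃ q : ℕ, ∀ (M : ℕ) (Nm : ℕ → Finset ℕ), NStr k Nm →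
  ∃ (s : ℕ → ℕ) (col : ℕ → ℕ → Fin q), (∀ a < M, ∀ b < M, s a = s b → a = b) ∧
    ∀ n m n' m', n < M → n' < M → m ∈ Nm n → m' ∈ Nm n' → col n m = col n' m' →
      s n < s n' → s m ≤ s m'

/-- FROMLD: a layered decomposition and a rank function with odd bounded increments give a stack
layout (uses BLOCK and QUEUE). -/
def StmtFromLD : Prop := ∀ c : ℕ, ∃ k : ℕ, ∀ (V : Type) [Finite V] (E : V → V → Prop)
    (ρ : V → ℤ), (∀ a b, E a b → Odd (ρ b - ρ a) ∧ 1 ≤ ρ b - ρ a ∧ ρ b - ρ a ≤ c) →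
  HasLD V E → Good k V E

/-- Connectedness of a digraph: a non-empty set of vertices closed under adjacency is
everything. -/
def Conn (V : Type) (E : V → V → Prop) : Prop :=
  ∀ T : Set V, T.Nonempty → (∀ a b, E a b → (a ∈ T ↔ b ∈ T)) → T = Set.univ

/-- COMP: stack layouts of the connected components give a stack layout. -/
def StmtComp : Prop := ∀ (k : ℕ) (V : Type) [Finite V] (E : V → V → Prop), 0 < k →
  (∀ S : Set V, S.Nonempty → Conn S (fun a b => E a.1 b.1) → Good k S (fun a b => E a.1 b.1)) →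
  Good k V E

/-- BFS: distance layering of a connected digraph. -/
def StmtBfs : Prop := ∀ (V : Type) [Finite V] (E : V → V → Prop) (r : V), Conn V E →
  ∃ j : V → ℕ, (∀ v, v ≠ r → ∃ w, (E v w ∨ E w v) ∧ j w < j v) ∧
    ∀ a b, E a b → j a ≤ j b + 1 ∧ j b ≤ j a + 1

/-! ## Drawings -/

/-- CURVE: from an upward planar drawing by curves to a level drawing. -/
def StmtCurve : Prop := ∀ (V : Type) [Fintype V] (E : V → V → Prop) (p : V → ℝ × ℝ)
    (γ : V → V → ℝ → ℝ × ℝ),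
  Function.Injective p →
  (∀ a b : V, E a b →
    ContinuousOn (γ a b) (Set.Icc 0 1) ∧ γ a b 0 = p a ∧ γ a b 1 = p b ∧
    (∀ s ∈ Set.Icc (0:ℝ) 1, ∀ t ∈ Set.Icc (0:ℝ) 1, s < t → (γ a b s).2 < (γ a b t).2) ∧
    (∀ v : V, ∀ s ∈ Set.Icc (0:ℝ) 1, γ a b s = p v → v = a ∨ v = b)) →
  (∀ a b c d : V, E a b → E c d → (a ≠ c ∨ b ≠ d) →
    ∀ s ∈ Set.Icc (0:ℝ) 1, ∀ t ∈ Set.Icc (0:ℝ) 1,
      γ a b s = γ c d t → ∃ v : V, γ a b s = p v) →
  Nonempty (LevDraw V E)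

/-- UPINJ: the order of the edges out of (into) a vertex is strict. -/
def StmtUpInj : Prop := ∀ (V : Type) (E : V → V → Prop) (L : LevDraw V E),
  (∀ e e' : Ed V E, e.1.1 = e'.1.1 → L.up e = L.up e' → e = e') ∧
  (∀ e e' : Ed V E, e.1.2 = e'.1.2 → L.dn e = L.dn e' → e = e')

/-- KEY: parity count along an edge. -/
def StmtKey : Prop := ∀ (V : Type) [Fintype V] (E : V → V → Prop) (L : LevDraw V E)
    (c : Ed V E → ZMod 2),
  (∀ v, (∑ e : Ed V E, ((if e.1.1 = v then c e else 0) + (if e.1.2 = v then c e else 0))) = 0) →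
  ∃ (g : Ed V E → ZMod 2) (N : V → ZMod 2),
    (∀ e, g e = N e.1.1 +
      ∑ e' : Ed V E, (if e'.1.1 = e.1.1 ∧ L.up e' < L.up e then c e' else 0)) ∧
    (∀ e, g e = N e.1.2 +
      ∑ e' : Ed V E, (if e'.1.2 = e.1.2 ∧ L.dn e' < L.dn e then c e' else 0))

/-- CYC: cyclic successors in the fibres of `o`, ordered by the key `κ`. -/
def StmtCyc : Prop := ∀ (V D K : Type) [Fintype D] [LinearOrder K] (o : D → V) (κ : D → K),
  (∀ d d', o d = o d' → κ d = κ d' → d = d') →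
  ∃ σ : Equiv.Perm D, (∀ d, o (σ d) = o d) ∧
    (∀ f : D → Prop, (∀ d, f (σ d) ↔ f d) → ∀ d d', o d = o d' → (f d ↔ f d')) ∧
    (∀ c : D → ZMod 2, (∀ v, (∑ d, (if o d = v then c d else 0)) = 0) → ∀ d,
      (∑ d', (if o d' = o d ∧ κ d' < κ (σ d) then c d' else 0)) =
        (∑ d', (if o d' = o d ∧ κ d' < κ d then c d' else 0)) + c d)

/-- Darts of a digraph: an edge with a direction (`true` is from tail to head). -/
abbrev Dt (V : Type) (E : V → V → Prop) : Type := Ed V E × Bool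

/-- Origin of a dart. -/
def org {V : Type} {E : V → V → Prop} (d : Dt V E) : V := if d.2 then d.1.1.1 else d.1.1.2

/-- Reversed dart. -/
def rev {V : Type} {E : V → V → Prop} (d : Dt V E) : Dt V E := (d.1, !d.2)

/-- MAP: a level drawing gives a plane map (uses UPINJ, KEY, CYC). -/
def StmtMap : Prop := ∀ (V : Type) [Fintype V] (E : V → V → Prop) (_ : LevDraw V E),
  (∀ v, ∃ w, E v w ∨ E w v) →
  (∀ a b, E a b → ∃ c, (E a c ∧ c ≠ b) ∨ E c a ∨ (E c b ∧ c ≠ a) ∨ E b c) →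
  ∃ P : PMap V (Dt V E), (∀ d, P.o d = org d) ∧ ∀ d, P.α d = rev d

/-! ## Triangulating a plane map -/

section Tri

variable {V D : Type} [Fintype D] (P : PMap V D)

/-- Faces of a plane map. -/
abbrev Fc : Type := Quotient (Equiv.Perm.SameCycle.setoid P.φ)

/-- Vertices of the triangulation: vertices, corners (darts) and faces. -/
abbrev TW : Type := V ⊕ D ⊕ Fc P

/-- An old vertex. -/
abbrev wV (v : V) : TW P := Sum.inl v
/-- A corner. -/
abbrev wD (d : D) : TW P := Sum.inr (Sum.inl d)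
/-- The face of a dart. -/
abbrev wF (d : D) : TW P := Sum.inr (Sum.inr (Quotient.mk _ d))

/-- Vertex sets of the triangles. -/
def triVt (t : D × Fin 3) : Finset (TW P) :=
  if t.2 = 0 then {wV P (P.o t.1), wV P (P.o (P.α t.1)), wD P (P.φ t.1)}
  else if t.2 = 1 then {wV P (P.o t.1), wD P (P.φ t.1), wD P t.1}
  else {wD P t.1, wD P (P.φ t.1), wF P t.1}

/-- The edges of the triangulation and the two triangles at each. -/
inductive TE : TW P → TW P → D × Fin 3 → D × Fin 3 → Prop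
  | main (d : D) : TE (wV P (P.o d)) (wV P (P.o (P.α d))) (d, 0) (P.α d, 0)
  | spoke (d : D) : TE (wV P (P.o d)) (wD P d) (d, 1) (P.φ.symm d, 0)
  | diag (d : D) : TE (wV P (P.o d)) (wD P (P.φ d)) (d, 0) (d, 1)
  | ring (d : D) : TE (wD P d) (wD P (P.φ d)) (d, 1) (d, 2)
  | inner (d : D) : TE (wD P d) (wF P d) (d, 2) (P.φ.symm d, 2)

end Tri

/-- TRIEDGES: classification of the edges of the triangulation. -/
def StmtTriEdges : Prop := ∀ (V D : Type) [Fintype D] (P : PMap V D),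
  (∀ t, (triVt P t).card = 3) ∧
  (∀ u v t t', TE P u v t t' → t ≠ t' ∧ u ≠ v ∧
    ∀ s, (u ∈ triVt P s ∧ v ∈ triVt P s) ↔ (s = t ∨ s = t')) ∧
  (∀ u v s, u ≠ v → u ∈ triVt P s → v ∈ triVt P s → ∃ t t', TE P u v t t' ∨ TE P v u t t')

/-- TRIDEG: the degree conditions of a chain on the triangulation, written over the darts
(uses TRIEDGES). -/
def StmtTriDeg : Prop := ∀ (V D : Type) [Fintype V] [Fintype D] (P : PMap V D)
    (C : TW P → TW P → ZMod 2), (∀ u v, C u v = C v u) → (∀ u, C u u = 0) →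
  (∀ u v, C u v ≠ 0 → ∃ t, u ∈ triVt P t ∧ v ∈ triVt P t) → (∀ u, (∑ v, C u v) = 0) →
  (∀ v : V, (∑ d : D, (if P.o d = v then C (wV P (P.o d)) (wV P (P.o (P.α d))) +
      C (wV P (P.o d)) (wD P d) + C (wV P (P.o d)) (wD P (P.φ d)) else 0)) = 0) ∧
  (∀ d : D, C (wV P (P.o d)) (wD P d) + C (wV P (P.o (P.φ.symm d))) (wD P d) +
      C (wD P d) (wD P (P.φ d)) + C (wD P (P.φ.symm d)) (wD P d) + C (wD P d) (wF P d) = 0) ∧
  (∀ d : D, (∑ d' : D, (if P.φ.SameCycle d d' then C (wD P d') (wF P d') else 0)) = 0)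

/-- ORBIT: primitives along the cycles of a permutation. -/
def StmtOrbit : Prop := ∀ (D : Type) [Fintype D] (φ : Equiv.Perm D) (g : D → ZMod 2),
  (∀ d, (∑ d' : D, (if φ.SameCycle d d' then g d' else 0)) = 0) →
  ∃ r : D → ZMod 2, ∀ d, r d + r (φ.symm d) = g d

/-- TRIFILL: even chains are boundaries (uses TRIEDGES, TRIDEG, ORBIT). -/
def StmtTriFill : Prop := ∀ (V D : Type) [Fintype V] [Fintype D] (P : PMap V D)
    (C : TW P → TW P → ZMod 2), (∀ u v, C u v = C v u) → (∀ u, C u u = 0) →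
  (∀ u v, C u v ≠ 0 → ∃ t, u ∈ triVt P t ∧ v ∈ triVt P t) → (∀ u, (∑ v, C u v) = 0) →
  ∃ R : Finset (D × Fin 3), bd (triVt P) R = C

/-- TRIUNIQ: only the empty set and the whole sphere have zero boundary (uses TRIEDGES). -/
def StmtTriUniq : Prop := ∀ (V D : Type) [Fintype D] (P : PMap V D) (r : V) (j : V → ℕ),
  (∀ v, v ≠ r → ∃ d, P.o d = v ∧ j (P.o (P.α d)) < j v) →
  ∀ R : Finset (D × Fin 3), bd (triVt P) R = 0 → R = ∅ ∨ R = Finset.univ

/-- TRILINK: the triangles at a vertex form one cycle (uses TRIEDGES). -/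
def StmtTriLink : Prop := ∀ (V D : Type) [Fintype D] (P : PMap V D) (v : TW P)
    (f : D × Fin 3 → Prop), (∀ t t', v ∈ triVt P t → v ∈ triVt P t' →
    (∃ w, w ≠ v ∧ w ∈ triVt P t ∧ w ∈ triVt P t') → (f t ↔ f t')) →
    ∀ t t', v ∈ triVt P t → v ∈ triVt P t' → (f t ↔ f t')

/-- TRI: a plane map with a distance function gives a triangulated sphere (uses all TRI
packets). -/
def StmtTri : Prop := ∀ (V D : Type) [Fintype V] [Fintype D] (P : PMap V D) (r : V) (j : V → ℕ),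
  (∀ v, v ≠ r → ∃ d, P.o d = v ∧ j (P.o (P.α d)) < j v) →
  ∃ (W Tr : Type) (_ : Fintype W) (_ : Fintype Tr) (K : SC W Tr) (ι : V → W),
    Function.Injective ι ∧ (∀ v, K.ht (ι v) = j v) ∧
    ∀ d, ∃ t, ι (P.o d) ∈ K.vt t ∧ ι (P.o (P.α d)) ∈ K.vt t

/-! ## Decomposing a triangulated sphere -/

/-- CIRCUIT: an even chain supported on a simple closed walk is zero or the whole walk. -/
def StmtCircuit : Prop := ∀ (W : Type) [Fintype W] (l : List W) (C : W → W → ZMod 2), l.Nodup →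
  (∀ u v, C u v = C v u) → (∀ u, C u u = 0) → (∀ u, (∑ v, C u v) = 0) →
  (∀ u v, C u v ≠ 0 → cyc l u v ≠ 0) → C = 0 ∨ C = cyc l

/-- HIT: the path of parents of a vertex of a region stays inside until it meets the
boundary. -/
def StmtHit : Prop := ∀ (W Tr : Type) [Fintype W] [Fintype Tr] (K : SC W Tr) (S : Finset Tr)
    (l : List W) (v : W), K.t0 ∉ S → bd K.vt S = cyc l → (∃ t ∈ S, v ∈ K.vt t) →
  ∃ n, K.par^[n] v ∈ l ∧ ∀ i < n, K.par^[i] v ∉ l ∧ (∀ t, K.par^[i] v ∈ K.vt t → t ∈ S) ∧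
    K.ht (K.par^[i + 1] v) < K.ht (K.par^[i] v) ∧
    ∃ t ∈ S, K.par^[i] v ∈ K.vt t ∧ K.par^[i + 1] v ∈ K.vt t

/-- SPERNER: a region whose boundary is coloured `0…0 1…1 2…2` has a three-coloured
triangle. -/
def StmtSperner : Prop := ∀ (W Tr : Type) [Fintype W] [Fintype Tr] (vt : Tr → Finset W)
    (S : Finset Tr) (a b c : List W) (f : W → Fin 3),
  (∀ t, (vt t).card = 3) → (a ++ b ++ c).Nodup → a ≠ [] → b ≠ [] → c ≠ [] →
  bd vt S = cyc (a ++ b ++ c) →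
  (∀ v ∈ a, f v = 0) → (∀ v ∈ b, f v = 1) → (∀ v ∈ c, f v = 2) →
  ∃ τ ∈ S, ∃ x ∈ vt τ, ∃ y ∈ vt τ, ∃ z ∈ vt τ, f x = 0 ∧ f y = 1 ∧ f z = 2

/-- THETA: a chord path splits a region into two regions (uses CIRCUIT). -/
def StmtTheta : Prop := ∀ (W Tr : Type) [Fintype W] [Fintype Tr] (K : SC W Tr) (S : Finset Tr)
    (p q : W) (l₁ l₂ P : List W),
  K.t0 ∉ S → bd K.vt S = cyc (p :: (l₁ ++ q :: l₂)) → (p :: (l₁ ++ q :: l₂) ++ P).Nodup →
  List.IsChain (fun u v => ∃ t ∈ S, u ∈ K.vt t ∧ v ∈ K.vt t) (p :: (P ++ [q])) →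
  ∃ S₁ ⊆ S, bd K.vt S₁ = cyc (p :: (l₁ ++ q :: P.reverse)) ∧
    bd K.vt (S \ S₁) = cyc (q :: (l₂ ++ p :: P))

/-- NOTIN: if the path of parents of `v` avoids `Γ` up to a vertex of `l` then `v` is not a
vertex of the subregion bounded by `Γ` (uses HIT). -/
def StmtNotIn : Prop := ∀ (W Tr : Type) [Fintype W] [Fintype Tr] (K : SC W Tr)
    (S S₁ : Finset Tr) (l Γ : List W) (v : W) (n : ℕ),
  K.t0 ∉ S → S₁ ⊆ S → bd K.vt S = cyc l → bd K.vt S₁ = cyc Γ → l.Nodup → 3 ≤ l.length →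
  K.par^[n] v ∈ l → (∀ i ≤ n, K.par^[i] v ∉ Γ) → ∀ t ∈ S₁, v ∉ K.vt t

/-- SPLIT: a non-empty region is split by a triangle `τ` and three vertical legs `Y` into at most
three regions, each bounded by three non-empty arcs contained in an old arc or in `Y`
(uses HIT, SPERNER, THETA, NOTIN). -/
def StmtSplit : Prop := ∀ (W Tr : Type) [Fintype W] [Fintype Tr] (K : SC W Tr) (S : Finset Tr)
    (a b c : List W), Reg K S a b c → S.Nonempty →
  ∃ (τ : Tr) (Y : Finset W) (R : Fin 3 → Finset Tr) (A B C : Fin 3 → List W),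
    τ ∈ S ∧ (∀ t ∈ S, t = τ ∨ ∃ i, t ∈ R i) ∧ (∀ i, R i ⊆ S) ∧ (∀ i, τ ∉ R i) ∧
    (∀ i i', i ≠ i' → Disjoint (R i) (R i')) ∧
    (∀ v ∈ Y, ∀ t, v ∈ K.vt t → t ∈ S) ∧ (∀ v ∈ Y, v ∉ a ++ b ++ c) ∧
    (∀ v ∈ Y, ∀ i, ∃ t, v ∈ K.vt t ∧ t ∉ R i) ∧
    (∀ h, (Y.filter (fun v => K.ht v = h)).card ≤ 3) ∧
    (∀ v ∈ K.vt τ, v ∈ a ++ b ++ c ∨ v ∈ Y) ∧
    (∀ i, (R i).Nonempty → Reg K (R i) (A i) (B i) (C i) ∧
      ∀ X ∈ [A i, B i, C i], (∀ v ∈ X, v ∈ a) ∨ (∀ v ∈ X, v ∈ b) ∨ (∀ v ∈ X, v ∈ c) ∨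
        (∀ v ∈ X, v ∈ Y))

/-- DECOMP: every triangulated sphere has a node structure with at most three earlier
neighbours, at most three vertices per node and height, and adjacent vertices in equal or
adjacent nodes (uses SPLIT). -/
def StmtDecomp : Prop := ∀ (W Tr : Type) [Fintype W] [Fintype Tr] (K : SC W Tr),
  ∃ (Nm : ℕ → Finset ℕ) (nd : W → ℕ), NStr 3 Nm ∧
    (∀ t, ∀ u ∈ K.vt t, ∀ v ∈ K.vt t, NAdj Nm (nd u) (nd v)) ∧
    (∀ n h, (Finset.univ.filter (fun v => nd v = n ∧ K.ht v = h)).card ≤ 3)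

end

end Pool.Agent.Helper80.Stk
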