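import Pool.Agent.Helper80.Stack.Goals

set_option autoImplicit false

/-!
# Paths of parents
-/

namespace Pool.Agent.Helper80.Stk

open Classical

theorem pf_Hit : StmtHit := by
  intro W Tr _ _ K S l v ht0 hbd hv
  induction hn : K.ht v using Nat.strong_induction_on generalizing v with
  | _ m ih =>
    by_cases hvl : v ∈ l
    · exact ⟨0, hvl, fun i hi => absurd hi (Nat.not_lt_zero i)⟩
    · have hall : ∀ t, v ∈ K.vt t → t ∈ S := by
        rcases K.star hbd hvl with h | h
        · exact h
        · obtain ⟨t, ht, hvt⟩ := hv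
          exact absurd ht (h t hvt)
      have hv0 : v ∉ K.vt K.t0 := fun h => ht0 (hall _ h)
      obtain ⟨t, h1, h2⟩ := K.par_edge v hv0
      have hlt := K.par_ht v hv0
      obtain ⟨n, hn1, hn2⟩ := ih (K.ht (K.par v)) (hn ▸ hlt) (K.par v) ⟨t, hall t h1, h2⟩ rfl
      refine ⟨n + 1, ?_, ?_⟩
      · rw [Function.iterate_succ_apply]; exact hn1
      · intro i hi
        cases i with
        | zero =>
          exact ⟨hvl, hall, hlt, t, hall t h1, h1, h2⟩
        | succ i =>
          have := hn2 i (by omega)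
          rw [Function.iterate_succ_apply, Function.iterate_succ_apply]
          exact this

/-- A vertex on a simple closed walk with at least three vertices lies on one of its edges. -/
lemma cyc_exists {W : Type} {l : List W} (hl : l.Nodup) (h3 : 3 ≤ l.length) {v : W}
    (hv : v ∈ l) : ∃ w, cyc l v w ≠ 0 := by
  obtain ⟨l₁, l₂, rfl⟩ := List.append_of_mem hv
  rw [cyc_rotate] at *
  have hnd : (v :: l₂ ++ l₁).Nodup := by
    have : (l₁ ++ v :: l₂).Perm (v :: l₂ ++ l₁) := List.perm_append_comm
    exact this.nodup_iff.mp hl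
  have hlen : 3 ≤ (v :: l₂ ++ l₁).length := by
    simp only [List.length_append, List.length_cons] at h3 ⊢; omega
  rw [List.cons_append] at *
  generalize l₂ ++ l₁ = q at *
  match q, hnd, hlen with
  | a :: b :: q, hnd, hlen =>
    refine ⟨a, ?_⟩
    have hva : v ≠ a := by
      intro h; subst h; simp at hnd
    have hvn : v ∉ a :: b :: q := (List.nodup_cons.mp hnd).1
    have hanq : a ∉ b :: q := (List.nodup_cons.mp (List.nodup_cons.mp hnd).2).1
    rw [cyc_cons, List.cons_append, pth_cons]
    simp only [Pi.add_apply]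
    have h1 : pth (a :: (b :: q ++ [v])) v a = 0 := by
      rw [List.cons_append, pth_cons]
      simp only [Pi.add_apply]
      have h2 : edg a b v a = 0 := by
        by_contra h
        obtain ⟨_, ⟨h3, h4⟩ | ⟨h3, h4⟩⟩ := edg_ne h
        · exact hva h3
        · exact hvn (by rw [h3]; simp)
      have h3 : pth (b :: (q ++ [v])) v a = 0 := by
        apply pth_zero_right
        intro h
        simp only [List.mem_cons, List.mem_append, List.not_mem_nil, or_false] at h hanq
        rcases h with h | h | h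
        · exact hanq (Or.inl h)
        · exact hanq (Or.inr h)
        · exact hva h.symm
      rw [h2, h3, add_zero]
    rw [h1, edg_apply hva, add_zero]
    exact one_ne_zero

/-- A vertex on the boundary of a region has a triangle outside and a triangle inside. -/
lemma SC.boundary {W Tr : Type} [Fintype W] [Fintype Tr] (K : SC W Tr) {S : Finset Tr}
    {l : List W} (hbd : bd K.vt S = cyc l) (hl : l.Nodup) (h3 : 3 ≤ l.length) {v : W}
    (hv : v ∈ l) : (∃ t, v ∈ K.vt t ∧ t ∈ S) ∧ (∃ t, v ∈ K.vt t ∧ t ∉ S) := by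
  obtain ⟨w, hw⟩ := cyc_exists hl h3 hv
  rw [← hbd] at hw
  obtain ⟨⟨t, h1, h2, h3⟩, ⟨t', h4, h5, h6⟩⟩ := K.one_of hw
  exact ⟨⟨t, h1, h3⟩, ⟨t', h4, h6⟩⟩

theorem pf_NotIn : StmtNotIn := by
  intro W Tr _ _ K S S₁ l Γ v n ht0 hS hbd hbd1 hl h3 hn hav t ht hv
  obtain ⟨n', h1, h2⟩ := pf_Hit W Tr K S₁ Γ v (fun h => ht0 (hS h)) hbd1 ⟨t, ht, hv⟩
  have hnn : n < n' := by
    by_contra h
    exact hav n' (by omega) h1
  obtain ⟨_, h4, _⟩ := h2 n hnn
  obtain ⟨_, ⟨t', h5, h6⟩⟩ := K.boundary hbd hl h3 hn
  exact h6 (hS (h4 t' h5))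

end Pool.Agent.Helper80.Stk
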