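import Pool.Agent.Helper80.Stack.Hit

set_option autoImplicit false

/-!
# Legs
-/

namespace Pool.Agent.Helper80.Stk

open Classical

variable {W Tr : Type} [Fintype W] [Fintype Tr] (K : SC W Tr)

/-- The first `n` vertices of the path of parents of `v`. -/
def leg (v : W) (n : ℕ) : List W := (List.range n).map (fun i => K.par^[i] v)

lemma leg_succ (v : W) (n : ℕ) : leg K v (n + 1) = leg K v n ++ [K.par^[n] v] := by
  unfold leg
  rw [List.range_succ, List.map_append]
  rfl

lemma leg_succ' (v : W) (n : ℕ) : leg K v (n + 1) = v :: leg K (K.par v) n := by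
  unfold leg
  rw [List.range_succ_eq_map, List.map_cons, List.map_map]
  rfl

lemma mem_leg {v w : W} {n : ℕ} : w ∈ leg K v n ↔ ∃ i < n, K.par^[i] v = w := by
  unfold leg
  rw [List.mem_map]
  constructor
  · rintro ⟨i, hi, h⟩
    exact ⟨i, List.mem_range.mp hi, h⟩
  · rintro ⟨i, hi, h⟩
    exact ⟨i, List.mem_range.mpr hi, h⟩

/-- The path of parents of `v` runs inside `S` until it meets `l` after `n` steps. -/
structure LegTo (S : Finset Tr) (l : List W) (v : W) (n : ℕ) : Prop where
  hit : K.par^[n] v ∈ l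
  out : ∀ i < n, K.par^[i] v ∉ l
  int : ∀ i < n, ∀ t, K.par^[i] v ∈ K.vt t → t ∈ S
  ht : ∀ i < n, K.ht (K.par^[i + 1] v) < K.ht (K.par^[i] v)
  edge : ∀ i < n, ∃ t ∈ S, K.par^[i] v ∈ K.vt t ∧ K.par^[i + 1] v ∈ K.vt t

lemma legTo_of {S : Finset Tr} {l : List W} {v : W} (h0 : K.t0 ∉ S) (hb : bd K.vt S = cyc l)
    (hv : ∃ t ∈ S, v ∈ K.vt t) : ∃ n, LegTo K S l v n := by
  obtain ⟨n, h1, h2⟩ := pf_Hit W Tr K S l v h0 hb hv
  exact ⟨n, h1, fun i hi => (h2 i hi).1, fun i hi => (h2 i hi).2.1, fun i hi => (h2 i hi).2.2.1,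
    fun i hi => (h2 i hi).2.2.2⟩

variable {K}

lemma LegTo.ht_lt {S : Finset Tr} {l : List W} {v : W} {n : ℕ} (h : LegTo K S l v n)
    {i j : ℕ} (hij : i < j) (hj : j ≤ n) : K.ht (K.par^[j] v) < K.ht (K.par^[i] v) := by
  induction j, hij using Nat.le_induction with
  | base => exact h.ht i (by omega)
  | succ j hij ih =>
    exact lt_trans (h.ht j (by omega)) (ih (by omega))

lemma LegTo.nodup {S : Finset Tr} {l : List W} {v : W} {n : ℕ} (h : LegTo K S l v n) :
    (leg K v n).Nodup := by
  unfold leg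
  rw [List.nodup_map_iff_inj_on List.nodup_range]
  intro i hi j hj hij
  rw [List.mem_range] at hi hj
  rcases lt_trichotomy i j with h1 | h1 | h1
  · have := h.ht_lt h1 hj.le
    rw [hij] at this
    omega
  · exact h1
  · have := h.ht_lt h1 hi.le
    rw [hij] at this
    omega

lemma LegTo.notMem {S : Finset Tr} {l : List W} {v : W} {n : ℕ} (h : LegTo K S l v n) {w : W}
    (hw : w ∈ leg K v n) : w ∉ l := by
  obtain ⟨i, hi, rfl⟩ := (mem_leg K).mp hw
  exact h.out i hi

/-- Two legs that meet have the same end. -/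
lemma LegTo.meet {S S' : Finset Tr} {l : List W} {v w : W} {n m : ℕ} (h : LegTo K S l v n)
    (h' : LegTo K S' l w m) {i j : ℕ} (hi : i ≤ n) (hj : j ≤ m)
    (he : K.par^[i] v = K.par^[j] w) : K.par^[n] v = K.par^[m] w := by
  have h1 : K.par^[n] v = K.par^[n - i] (K.par^[j] w) := by
    rw [← he, ← Function.iterate_add_apply]; congr 1; omega
  have h2 : K.par^[m] w = K.par^[m - j] (K.par^[i] v) := by
    rw [he, ← Function.iterate_add_apply]; congr 1; omega
  rcases lt_trichotomy (n - i) (m - j) with h3 | h3 | h3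
  · exfalso
    have h4 := h'.out (n - i + j) (by omega)
    rw [Function.iterate_add_apply, ← h1] at h4
    exact h4 h.hit
  · rw [h1, h3, ← Function.iterate_add_apply]; congr 1; omega
  · exfalso
    have h4 := h.out (m - j + i) (by omega)
    rw [Function.iterate_add_apply, ← h2] at h4
    exact h4 h'.hit

/-- Chain property of a leg. -/
lemma leg_chain {R : W → W → Prop} {v : W} {n : ℕ}
    (h : ∀ i < n, R (K.par^[i] v) (K.par^[i + 1] v)) : List.IsChain R (leg K v (n + 1)) := by
  unfold leg
  rw [List.isChain_map]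
  exact (List.isChain_range_succ _ n).mpr h

/-- At most one vertex of a leg at every height. -/
lemma LegTo.card_le {S : Finset Tr} {l : List W} {v : W} {n : ℕ} (h : LegTo K S l v n) (c : ℕ) :
    (((leg K v n).toFinset).filter (fun w => K.ht w = c)).card ≤ 1 := by
  rw [Finset.card_le_one]
  intro a ha b hb
  simp only [Finset.mem_filter, List.mem_toFinset, mem_leg] at ha hb
  obtain ⟨⟨i, hi, rfl⟩, h1⟩ := ha
  obtain ⟨⟨j, hj, rfl⟩, h2⟩ := hb
  rcases lt_trichotomy i j with h3 | h3 | h3
  · have := h.ht_lt h3 hj.le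
    omega
  · rw [h3]
  · have := h.ht_lt h3 hi.le
    omega

/-- Closed walks with at most two vertices are trivial. -/
lemma cyc_short {W : Type} {l : List W} (h : l.length < 3) : cyc l = 0 := by
  match l, h with
  | [], _ => rfl
  | [x], _ => rw [cyc_cons]; simp
  | [x, y], _ =>
    rw [cyc_cons]
    simp only [List.cons_append, List.nil_append]
    rw [pth_cons, pth_pair, edg_comm y x, ch_add_self]

/-- The boundary walk of a non-empty region has at least three vertices. -/
lemma SC.three_le {R : Finset Tr} {l : List W} (h0 : K.t0 ∉ R) (hb : bd K.vt R = cyc l)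
    (hR : R.Nonempty) : 3 ≤ l.length := by
  by_contra h
  rw [cyc_short (by omega)] at hb
  rw [K.uniq R h0 hb] at hR
  exact Finset.not_nonempty_empty hR

/-- Three non-empty arcs. -/
lemma rearc {R : Finset Tr} {A B C : List W} (h0 : K.t0 ∉ R) (hb : bd K.vt R = cyc (A ++ B ++ C))
    (hnd : (A ++ B ++ C).Nodup) (hA : A ≠ []) (hB : B ≠ []) (hR : R.Nonempty) :
    ∃ A' B' C', Reg K R A' B' C' ∧ ∀ X ∈ [A', B', C'], X ⊆ A ∨ X ⊆ B ∨ X ⊆ C := by
  by_cases hC : C = []
  · subst hC
    have h3 := K.three_le h0 hb hR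
    match A, B, hA, hB, hnd, hb, h3 with
    | a :: a' :: A, b :: B, _, _, hnd, hb, _ =>
      refine ⟨[a], a' :: A, b :: B, ⟨h0, ?_, by simp, by simp, by simp, ?_⟩, ?_⟩
      · simpa using hnd
      · simpa using hb
      · intro X hX
        simp only [List.mem_cons, List.not_mem_nil, or_false] at hX
        rcases hX with rfl | rfl | rfl
        · left; intro w hw; simp at hw; simp [hw]
        · left; intro w hw; exact List.mem_cons_of_mem _ hw
        · right; left; exact fun w hw => hw
    | [a], b :: b' :: B, _, _, hnd, hb, _ =>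
      refine ⟨[a], [b], b' :: B, ⟨h0, ?_, by simp, by simp, by simp, ?_⟩, ?_⟩
      · simpa using hnd
      · simpa using hb
      · intro X hX
        simp only [List.mem_cons, List.not_mem_nil, or_false] at hX
        rcases hX with rfl | rfl | rfl
        · left; exact fun w hw => hw
        · right; left; intro w hw; simp at hw; simp [hw]
        · right; left; intro w hw; exact List.mem_cons_of_mem _ hw
    | [a], [b], _, _, _, _, h3 => simp at h3
  · refine ⟨A, B, C, ⟨h0, hnd, hA, hB, hC, hb⟩, ?_⟩
    intro X hX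
    simp only [List.mem_cons, List.not_mem_nil, or_false] at hX
    rcases hX with rfl | rfl | rfl
    · left; exact fun w hw => hw
    · right; left; exact fun w hw => hw
    · right; right; exact fun w hw => hw

end Pool.Agent.Helper80.Stk
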