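import Pool.Agent.Helper80.Stack.Chain

set_option autoImplicit false

/-!
# Basic facts about triangulated spheres
-/

namespace Pool.Agent.Helper80.Stk

open Classical

variable {W Tr : Type} [Fintype W] [Fintype Tr] (K : SC W Tr)

/-- If the boundary of `S` vanishes at `u v` then all or none of the triangles at `u v` are
in `S`. -/
lemma SC.all_or_none {S : Finset Tr} {u v : W} (huv : u ≠ v) (h : bd K.vt S u v = 0) :
    (∀ t, u ∈ K.vt t → v ∈ K.vt t → t ∈ S) ∨ (∀ t, u ∈ K.vt t → v ∈ K.vt t → t ∉ S) := by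
  unfold bd at h
  rw [if_neg huv] at h
  have hsub : S.filter (fun t => u ∈ K.vt t ∧ v ∈ K.vt t) ⊆
      Finset.univ.filter (fun t => u ∈ K.vt t ∧ v ∈ K.vt t) :=
    Finset.filter_subset_filter _ (Finset.subset_univ _)
  rcases K.two u v huv with h2 | h2
  · right
    intro t hu hv ht
    have : t ∈ Finset.univ.filter (fun t => u ∈ K.vt t ∧ v ∈ K.vt t) := by simp [hu, hv]
    rw [Finset.card_eq_zero.mp h2] at this
    simp at this
  · have h3 := Finset.card_le_card hsub
    rw [h2] at h3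
    have h4 : Even (S.filter (fun t => u ∈ K.vt t ∧ v ∈ K.vt t)).card :=
      (ZMod.natCast_eq_zero_iff_even).mp h
    obtain ⟨k, hk⟩ := h4
    rcases Nat.eq_zero_or_pos k with hk0 | hk0
    · right
      intro t hu hv ht
      have h5 : S.filter (fun t => u ∈ K.vt t ∧ v ∈ K.vt t) = ∅ := by
        apply Finset.card_eq_zero.mp; omega
      have : t ∈ S.filter (fun t => u ∈ K.vt t ∧ v ∈ K.vt t) := by simp [hu, hv, ht]
      rw [h5] at this
      simp at this
    · left
      intro t hu hv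
      have h5 : S.filter (fun t => u ∈ K.vt t ∧ v ∈ K.vt t) =
          Finset.univ.filter (fun t => u ∈ K.vt t ∧ v ∈ K.vt t) := by
        apply Finset.eq_of_subset_of_card_le hsub
        omega
      have : t ∈ Finset.univ.filter (fun t => u ∈ K.vt t ∧ v ∈ K.vt t) := by simp [hu, hv]
      rw [← h5] at this
      exact (Finset.mem_filter.mp this).1

/-- If the boundary of `S` does not vanish at `u v` then exactly one of the two triangles at
`u v` is in `S`. -/
lemma SC.one_of {S : Finset Tr} {u v : W} (h : bd K.vt S u v ≠ 0) :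
    (∃ t, u ∈ K.vt t ∧ v ∈ K.vt t ∧ t ∈ S) ∧ (∃ t, u ∈ K.vt t ∧ v ∈ K.vt t ∧ t ∉ S) := by
  have huv : u ≠ v := by
    rintro rfl
    exact h (bd_diag _ _ _)
  unfold bd at h
  rw [if_neg huv] at h
  have hsub : S.filter (fun t => u ∈ K.vt t ∧ v ∈ K.vt t) ⊆
      Finset.univ.filter (fun t => u ∈ K.vt t ∧ v ∈ K.vt t) :=
    Finset.filter_subset_filter _ (Finset.subset_univ _)
  have h3 := Finset.card_le_card hsub
  have h4 : ¬ Even (S.filter (fun t => u ∈ K.vt t ∧ v ∈ K.vt t)).card := fun h' =>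
    h ((ZMod.natCast_eq_zero_iff_even).mpr h')
  constructor
  · by_contra hcon
    push Not at hcon
    apply h4
    have : S.filter (fun t => u ∈ K.vt t ∧ v ∈ K.vt t) = ∅ := by
      apply Finset.filter_eq_empty_iff.mpr
      rintro t ht ⟨h5, h6⟩
      exact hcon t h5 h6 ht
    rw [this]; simp
  · by_contra hcon
    push Not at hcon
    apply h4
    have : S.filter (fun t => u ∈ K.vt t ∧ v ∈ K.vt t) =
        Finset.univ.filter (fun t => u ∈ K.vt t ∧ v ∈ K.vt t) := by
      apply Finset.Subset.antisymm hsub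
      intro t ht
      obtain ⟨h5, h6⟩ := (Finset.mem_filter.mp ht).2
      exact Finset.mem_filter.mpr ⟨hcon t h5 h6, h5, h6⟩
    rw [this]
    rcases K.two u v huv with h2 | h2 <;> rw [h2] <;> decide

/-- A set of triangles with boundary `cyc l` contains all or none of the triangles at a vertex
which is not on `l`. -/
lemma SC.star {S : Finset Tr} {l : List W} (h : bd K.vt S = cyc l) {v : W} (hv : v ∉ l) :
    (∀ t, v ∈ K.vt t → t ∈ S) ∨ (∀ t, v ∈ K.vt t → t ∉ S) := by
  obtain ⟨t1, ht1⟩ := K.cov v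
  have key : ∀ t, v ∈ K.vt t → (t ∈ S ↔ t1 ∈ S) := by
    intro t ht
    apply K.link v (fun t => t ∈ S) _ t t1 ht ht1
    intro t t' h1 h2 ⟨w, hw, h3, h4⟩
    have h5 : bd K.vt S v w = 0 := by rw [h]; exact cyc_zero_left w hv
    rcases K.all_or_none hw.symm h5 with h6 | h6
    · exact ⟨fun _ => h6 t' h2 h4, fun _ => h6 t h1 h3⟩
    · exact ⟨fun h7 => absurd h7 (h6 t h1 h3), fun h7 => absurd h7 (h6 t' h2 h4)⟩
  by_cases h1 : t1 ∈ S
  · left
    intro t ht
    exact (key t ht).mpr h1
  · right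
    intro t ht h2
    exact h1 ((key t ht).mp h2)

/-- The whole sphere has no boundary. -/
lemma SC.bd_univ : bd K.vt (Finset.univ : Finset Tr) = 0 := by
  funext u v
  by_cases huv : u = v
  · subst huv; exact bd_diag _ _ _
  · unfold bd
    rw [if_neg huv]
    rcases K.two u v huv with h2 | h2 <;> rw [h2] <;> rfl

/-- Uniqueness of fillings. -/
lemma SC.bd_inj {R R' : Finset Tr} (h : K.t0 ∉ R) (h' : K.t0 ∉ R')
    (he : bd K.vt R = bd K.vt R') : R = R' := by
  have h1 : symmDiff R R' = ∅ := by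
    apply K.uniq
    · intro h2
      rcases Finset.mem_symmDiff.mp h2 with ⟨h3, _⟩ | ⟨h3, _⟩
      · exact h h3
      · exact h' h3
    · rw [bd_symmDiff, he, ch_add_self]
  exact symmDiff_eq_bot.mp h1

/-- A set of triangles without the outer one with zero boundary is empty; a triangle has a
non-zero boundary edge. -/
lemma SC.edge_mem {l : List W} {S : Finset Tr} (h : bd K.vt S = cyc l) {u v : W}
    (h1 : cyc l u v ≠ 0) : ∃ t ∈ S, u ∈ K.vt t ∧ v ∈ K.vt t := by
  rw [← h] at h1
  obtain ⟨⟨t, h2, h3, h4⟩, _⟩ := K.one_of h1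
  exact ⟨t, h4, h2, h3⟩

end Pool.Agent.Helper80.Stk
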