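import Pool.Agent.Helper80.Stack.Leg

set_option autoImplicit false

/-!
# Splitting a region
-/

namespace Pool.Agent.Helper80.Stk

open Classical

variable {W Tr : Type} [Fintype W] [Fintype Tr] {K : SC W Tr}

lemma chain_two {S : Finset Tr} {x y : W} {nx ny : ℕ}
    (hx : ∀ i < nx, ∃ t ∈ S, K.par^[i] x ∈ K.vt t ∧ K.par^[i + 1] x ∈ K.vt t)
    (hy : ∀ i < ny, ∃ t ∈ S, K.par^[i] y ∈ K.vt t ∧ K.par^[i + 1] y ∈ K.vt t)
    (hxy : ∃ t ∈ S, x ∈ K.vt t ∧ y ∈ K.vt t) :
    List.IsChain (fun u v => ∃ t ∈ S, u ∈ K.vt t ∧ v ∈ K.vt t)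
      (K.par^[nx] x :: ((leg K x nx).reverse ++ leg K y ny ++ [K.par^[ny] y])) := by
  have e : K.par^[nx] x :: ((leg K x nx).reverse ++ leg K y ny ++ [K.par^[ny] y]) =
      (leg K x (nx + 1)).reverse ++ leg K y (ny + 1) := by
    rw [leg_succ, leg_succ]; simp
  rw [e]
  apply List.IsChain.append
  · rw [List.isChain_reverse]
    apply leg_chain
    intro i hi
    obtain ⟨t, h1, h2, h3⟩ := hx i hi
    exact ⟨t, h1, h3, h2⟩
  · exact leg_chain hy
  · intro u hu v hv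
    rw [List.getLast?_reverse, leg_succ'] at hu
    rw [leg_succ'] at hv
    simp only [List.head?_cons, Option.mem_def, Option.some.injEq] at hu hv
    subst hu; subst hv
    exact hxy

/-- Vertices of a leg are not on another leg. -/
lemma LegTo.disj {S S' : Finset Tr} {l : List W} {v w : W} {n m : ℕ} (h : LegTo K S l v n)
    (h' : LegTo K S' l w m) (hne : K.par^[n] v ≠ K.par^[m] w) {i : ℕ} (hi : i ≤ n) :
    K.par^[i] v ∉ leg K w m := by
  intro h1
  obtain ⟨j, hj, h2⟩ := (mem_leg K).mp h1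
  exact hne (h.meet h' hi hj.le h2.symm)

/-- The data of a split: arcs `a = a₁ X a₂`, `b = b₁ Y b₂`, `c = c₁ Z c₂`, a triangle `τ` with
vertices `x, y, z` and legs from these to `X, Y, Z`. -/
structure SplitData (K : SC W Tr) (S : Finset Tr) (a₁ a₂ b₁ b₂ c₁ c₂ : List W) (τ : Tr)
    (x y z : W) (nx ny nz : ℕ) : Prop where
  t0 : K.t0 ∉ S
  nodup : ((a₁ ++ K.par^[nx] x :: a₂) ++ (b₁ ++ K.par^[ny] y :: b₂) ++
    (c₁ ++ K.par^[nz] z :: c₂)).Nodup
  hbd : bd K.vt S = cyc ((a₁ ++ K.par^[nx] x :: a₂) ++ (b₁ ++ K.par^[ny] y :: b₂) ++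
    (c₁ ++ K.par^[nz] z :: c₂))
  τS : τ ∈ S
  vτ : K.vt τ = {x, y, z}
  lx : LegTo K S ((a₁ ++ K.par^[nx] x :: a₂) ++ (b₁ ++ K.par^[ny] y :: b₂) ++
    (c₁ ++ K.par^[nz] z :: c₂)) x nx
  ly : LegTo K S ((a₁ ++ K.par^[nx] x :: a₂) ++ (b₁ ++ K.par^[ny] y :: b₂) ++
    (c₁ ++ K.par^[nz] z :: c₂)) y ny
  lz : LegTo K S ((a₁ ++ K.par^[nx] x :: a₂) ++ (b₁ ++ K.par^[ny] y :: b₂) ++
    (c₁ ++ K.par^[nz] z :: c₂)) z nz

section

variable {S : Finset Tr} {a₁ a₂ b₁ b₂ c₁ c₂ : List W} {τ : Tr} {x y z : W} {nx ny nz : ℕ}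

lemma SplitData.neXY (h : SplitData K S a₁ a₂ b₁ b₂ c₁ c₂ τ x y z nx ny nz) :
    K.par^[nx] x ≠ K.par^[ny] y := by
  intro he
  have := h.nodup
  rw [he, List.nodup_iff_count_le_one] at this
  specialize this (K.par^[ny] y)
  simp only [List.count_append, List.count_cons, beq_self_eq_true, if_true] at this
  omega

lemma SplitData.neYZ (h : SplitData K S a₁ a₂ b₁ b₂ c₁ c₂ τ x y z nx ny nz) :
    K.par^[ny] y ≠ K.par^[nz] z := by
  intro he
  have := h.nodup
  rw [he, List.nodup_iff_count_le_one] at this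
  specialize this (K.par^[nz] z)
  simp only [List.count_append, List.count_cons, beq_self_eq_true, if_true] at this
  omega

lemma SplitData.neXZ (h : SplitData K S a₁ a₂ b₁ b₂ c₁ c₂ τ x y z nx ny nz) :
    K.par^[nx] x ≠ K.par^[nz] z := by
  intro he
  have := h.nodup
  rw [he, List.nodup_iff_count_le_one] at this
  specialize this (K.par^[nz] z)
  simp only [List.count_append, List.count_cons, beq_self_eq_true, if_true] at this
  omega

/-- All vertices involved are different. -/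
lemma SplitData.master (h : SplitData K S a₁ a₂ b₁ b₂ c₁ c₂ τ x y z nx ny nz) :
    (((a₁ ++ K.par^[nx] x :: a₂) ++ (b₁ ++ K.par^[ny] y :: b₂) ++
      (c₁ ++ K.par^[nz] z :: c₂)) ++ (leg K x nx ++ (leg K y ny ++ leg K z nz))).Nodup := by
  rw [List.nodup_append]
  refine ⟨h.nodup, ?_, ?_⟩
  · rw [List.nodup_append]
    refine ⟨h.lx.nodup, ?_, ?_⟩
    · rw [List.nodup_append]
      refine ⟨h.ly.nodup, h.lz.nodup, ?_⟩
      intro u hu v hv huv
      subst huv
      obtain ⟨i, hi, rfl⟩ := (mem_leg K).mp hu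
      exact h.ly.disj h.lz h.neYZ hi.le hv
    · intro u hu v hv huv
      subst huv
      obtain ⟨i, hi, rfl⟩ := (mem_leg K).mp hu
      rcases List.mem_append.mp hv with hv | hv
      · exact h.lx.disj h.ly h.neXY hi.le hv
      · exact h.lx.disj h.lz h.neXZ hi.le hv
  · intro u hu v hv huv
    subst huv
    rcases List.mem_append.mp hv with hv | hv
    · exact h.lx.notMem hv hu
    · rcases List.mem_append.mp hv with hv | hv
      · exact h.ly.notMem hv hu
      · exact h.lz.notMem hv hu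

lemma SplitData.len (h : SplitData K S a₁ a₂ b₁ b₂ c₁ c₂ τ x y z nx ny nz) :
    3 ≤ ((a₁ ++ K.par^[nx] x :: a₂) ++ (b₁ ++ K.par^[ny] y :: b₂) ++
      (c₁ ++ K.par^[nz] z :: c₂)).length := by
  simp only [List.length_append, List.length_cons]; omega

/-- The first split: by the path through the legs of `x` and `y`. -/
lemma SplitData.step1 (hT : StmtTheta)
    (h : SplitData K S a₁ a₂ b₁ b₂ c₁ c₂ τ x y z nx ny nz) :
    ∃ Sz ⊆ S, bd K.vt Sz = cyc ((K.par^[nx] x :: a₂) ++ (b₁ ++ [K.par^[ny] y]) ++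
        ((leg K y ny).reverse ++ leg K x nx)) ∧
      bd K.vt (S \ Sz) = cyc (K.par^[ny] y :: ((b₂ ++ (c₁ ++ K.par^[nz] z :: c₂) ++ a₁) ++
        K.par^[nx] x :: ((leg K x nx).reverse ++ leg K y ny))) ∧ τ ∉ Sz := by
  have hvτ := h.vτ
  have hxτ : x ∈ K.vt τ := by rw [hvτ]; simp
  have hyτ : y ∈ K.vt τ := by rw [hvτ]; simp
  have hzτ : z ∈ K.vt τ := by rw [hvτ]; simp
  have hm := List.nodup_iff_count_le_one.mp h.master
  have e1 : bd K.vt S = cyc (K.par^[nx] x :: ((a₂ ++ b₁) ++ K.par^[ny] y ::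
      (b₂ ++ (c₁ ++ K.par^[nz] z :: c₂) ++ a₁))) := by
    rw [h.hbd]
    have h1 : (a₁ ++ K.par^[nx] x :: a₂) ++ (b₁ ++ K.par^[ny] y :: b₂) ++
      (c₁ ++ K.par^[nz] z :: c₂) = a₁ ++ (K.par^[nx] x :: (a₂ ++ b₁ ++ K.par^[ny] y ::
        (b₂ ++ (c₁ ++ K.par^[nz] z :: c₂)))) := by simp
    rw [h1, cyc_rotate]
    congr 1
    simp
  obtain ⟨Sz, h1, h2, h3⟩ := hT W Tr K S _ _ _ _ ((leg K x nx).reverse ++ leg K y ny) h.t0 e1 (by
    rw [List.nodup_iff_count_le_one]
    intro w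
    have := hm w
    simp only [List.count_append, List.count_cons, List.count_reverse] at this ⊢
    omega) (chain_two h.lx.edge h.ly.edge ⟨τ, h.τS, hxτ, hyτ⟩)
  have h2' : bd K.vt Sz = cyc ((K.par^[nx] x :: a₂) ++ (b₁ ++ [K.par^[ny] y]) ++
        ((leg K y ny).reverse ++ leg K x nx)) := by
    rw [h2]; congr 1; simp
  refine ⟨Sz, h1, h2', h3, ?_⟩
  intro hτ
  refine pf_NotIn W Tr K S Sz _ _ z nz h.t0 h1 h.hbd h2' h.nodup h.len h.lz.hit ?_ τ hτ hzτ
  intro i hi hmem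
  rcases Nat.lt_or_eq_of_le hi with hi' | hi'
  · have h4 := h.lz.out i hi'
    have h5 := h.lz.disj h.lx h.neXZ.symm hi
    have h6 := h.lz.disj h.ly h.neYZ.symm hi
    simp only [List.mem_append, List.mem_cons, List.mem_reverse, List.not_mem_nil, or_false]
      at h4 h5 h6 hmem
    tauto
  · subst hi'
    have h5 := h.lz.disj h.lx h.neXZ.symm hi
    have h6 := h.lz.disj h.ly h.neYZ.symm hi
    have h7 := hm (K.par^[i] z)
    have h8 : 0 < List.count (K.par^[i] z) ((K.par^[nx] x :: a₂) ++ (b₁ ++ [K.par^[ny] y]) ++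
        ((leg K y ny).reverse ++ leg K x nx)) := List.count_pos_iff.mpr hmem
    simp only [List.count_append, List.count_cons, List.count_reverse, beq_self_eq_true, if_true,
      List.count_nil] at h7 h8
    omega

/-- The second split: by the leg of `z`, and the removal of `τ`. -/
lemma SplitData.step2 (hT : StmtTheta)
    (h : SplitData K S a₁ a₂ b₁ b₂ c₁ c₂ τ x y z nx ny nz)
    (hxy : x ≠ y) (hyz : y ≠ z) (hxz : x ≠ z) {Sz : Finset Tr} (hSz : Sz ⊆ S)
    (hbd' : bd K.vt (S \ Sz) = cyc (K.par^[ny] y :: ((b₂ ++ (c₁ ++ K.par^[nz] z :: c₂) ++ a₁) ++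
        K.par^[nx] x :: ((leg K x nx).reverse ++ leg K y ny)))) (hτ : τ ∉ Sz) :
    ∃ Sx Sy : Finset Tr, Sy ⊆ S \ Sz ∧ Sx = ((S \ Sz) \ Sy) \ {τ} ∧ τ ∉ Sy ∧
      bd K.vt Sy = cyc ((K.par^[nz] z :: c₂) ++ (a₁ ++ [K.par^[nx] x]) ++
        ((leg K x nx).reverse ++ leg K z nz)) ∧
      bd K.vt Sx = cyc ((K.par^[ny] y :: b₂) ++ (c₁ ++ [K.par^[nz] z]) ++
        ((leg K z nz).reverse ++ leg K y ny)) := by
  have hvτ := h.vτ
  have hxτ : x ∈ K.vt τ := by rw [hvτ]; simp
  have hyτ : y ∈ K.vt τ := by rw [hvτ]; simp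
  have hzτ : z ∈ K.vt τ := by rw [hvτ]; simp
  have hm := List.nodup_iff_count_le_one.mp h.master
  have hτ' : τ ∈ S \ Sz := Finset.mem_sdiff.mpr ⟨h.τS, hτ⟩
  have h0' : K.t0 ∉ S \ Sz := fun h' => h.t0 (Finset.mem_sdiff.mp h').1
  have hrx : K.par^[nx] x :: (leg K x nx).reverse = (leg K (K.par x) nx).reverse ++ [x] := by
    have e : K.par^[nx] x :: (leg K x nx).reverse = (leg K x (nx + 1)).reverse := by
      rw [leg_succ]; simp
    rw [e, leg_succ']; simp
  have hrz : K.par^[nz] z :: (leg K z nz).reverse = (leg K (K.par z) nz).reverse ++ [z] := by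
    have e : K.par^[nz] z :: (leg K z nz).reverse = (leg K z (nz + 1)).reverse := by
      rw [leg_succ]; simp
    rw [e, leg_succ']; simp
  have hry : leg K y ny ++ [K.par^[ny] y] = y :: leg K (K.par y) ny := by
    rw [← leg_succ, leg_succ']
  -- the boundary of `S \ Sz`, rotated
  have e1 : bd K.vt (S \ Sz) = cyc (K.par^[nz] z :: ((c₂ ++ a₁ ++ (leg K (K.par x) nx).reverse) ++
      x :: (leg K y ny ++ K.par^[ny] y :: (b₂ ++ c₁)))) := by
    rw [hbd']
    have h1 : K.par^[ny] y :: ((b₂ ++ (c₁ ++ K.par^[nz] z :: c₂) ++ a₁) ++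
        K.par^[nx] x :: ((leg K x nx).reverse ++ leg K y ny)) =
        (K.par^[ny] y :: (b₂ ++ c₁)) ++ (K.par^[nz] z :: (c₂ ++ a₁ ++
          ((K.par^[nx] x :: (leg K x nx).reverse) ++ leg K y ny))) := by simp
    rw [h1, cyc_rotate, hrx]
    congr 1
    simp
  -- the leg of `z` stays in `S \ Sz`
  obtain ⟨n', hn'⟩ := legTo_of K h0' hbd' ⟨τ, hτ', hzτ⟩
  have hout : ∀ i < nz, K.par^[i] z ∉ K.par^[ny] y :: ((b₂ ++ (c₁ ++ K.par^[nz] z :: c₂) ++ a₁) ++
        K.par^[nx] x :: ((leg K x nx).reverse ++ leg K y ny)) := by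
    intro i hi hmem
    have h4 := h.lz.out i hi
    have h5 := h.lz.disj h.lx h.neXZ.symm hi.le
    have h6 := h.lz.disj h.ly h.neYZ.symm hi.le
    simp only [List.mem_append, List.mem_cons, List.mem_reverse, List.not_mem_nil, or_false]
      at h4 h5 h6 hmem
    tauto
  have hnn : nz ≤ n' := by
    by_contra hcon
    exact hout n' (by omega) hn'.hit
  have hedge : ∀ i < nz, ∃ t ∈ S \ Sz, K.par^[i] z ∈ K.vt t ∧ K.par^[i + 1] z ∈ K.vt t :=
    fun i hi => hn'.edge i (by omega)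
  have hch : List.IsChain (fun u v => ∃ t ∈ S \ Sz, u ∈ K.vt t ∧ v ∈ K.vt t)
      (K.par^[nz] z :: ((leg K z nz).reverse ++ [x])) := by
    have := chain_two (K := K) (S := S \ Sz) (x := z) (y := x) (nx := nz) (ny := 0) hedge
      (fun i hi => absurd hi (Nat.not_lt_zero i)) ⟨τ, hτ', hzτ, hxτ⟩
    simpa [leg] using this
  have hcx : ∀ w, List.count w (leg K (K.par x) nx) + List.count w [x] =
      List.count w (leg K x nx) + List.count w [K.par^[nx] x] := by
    intro w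
    have := congrArg (List.count w) hrx
    simp only [List.count_cons, List.count_append, List.count_reverse, List.count_nil] at this ⊢
    omega
  obtain ⟨Sy, h1, h2, h3⟩ := hT W Tr K (S \ Sz) _ _ _ _ ((leg K z nz).reverse) h0' e1 (by
    rw [List.nodup_iff_count_le_one]
    intro w
    have h5 := hm w
    have h6 := hcx w
    simp only [List.count_append, List.count_cons, List.count_reverse, List.count_nil] at h5 h6 ⊢
    omega) hch
  have h2' : bd K.vt Sy = cyc ((K.par^[nz] z :: c₂) ++ (a₁ ++ [K.par^[nx] x]) ++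
        ((leg K x nx).reverse ++ leg K z nz)) := by
    rw [h2]
    congr 1
    have e2 : K.par^[nz] z :: (c₂ ++ a₁ ++ (leg K (K.par x) nx).reverse ++
        x :: (leg K z nz).reverse.reverse) = K.par^[nz] z :: (c₂ ++ a₁ ++
          (((leg K (K.par x) nx).reverse ++ [x]) ++ leg K z nz)) := by simp
    rw [e2, ← hrx]
    simp
  have hSyS : Sy ⊆ S := fun t ht => (Finset.mem_sdiff.mp (h1 ht)).1
  have hτy : τ ∉ Sy := by
    intro hτ2
    refine pf_NotIn W Tr K S Sy _ _ y ny h.t0 hSyS h.hbd h2' h.nodup h.len h.ly.hit ?_ τ hτ2 hyτ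
    intro i hi hmem
    rcases Nat.lt_or_eq_of_le hi with hi' | hi'
    · have h4 := h.ly.out i hi'
      have h5 := h.ly.disj h.lx h.neXY.symm hi
      have h6 := h.ly.disj h.lz h.neYZ hi
      simp only [List.mem_append, List.mem_cons, List.mem_reverse, List.not_mem_nil, or_false]
        at h4 h5 h6 hmem
      tauto
    · subst hi'
      have h5 := h.ly.disj h.lx h.neXY.symm hi
      have h6 := h.ly.disj h.lz h.neYZ hi
      have h7 := hm (K.par^[i] y)
      have h8 : 0 < List.count (K.par^[i] y) ((K.par^[nz] z :: c₂) ++ (a₁ ++ [K.par^[nx] x]) ++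
        ((leg K x nx).reverse ++ leg K z nz)) := List.count_pos_iff.mpr hmem
      simp only [List.count_append, List.count_cons, List.count_reverse, beq_self_eq_true, if_true,
        List.count_nil] at h7 h8
      omega
  refine ⟨((S \ Sz) \ Sy) \ {τ}, Sy, h1, rfl, hτy, h2', ?_⟩
  have hτ3 : τ ∈ (S \ Sz) \ Sy := Finset.mem_sdiff.mpr ⟨hτ', hτy⟩
  rw [bd_sdiff K.vt (Finset.singleton_subset_iff.mpr hτ3), h3, bd_single K.vt hvτ hxy hyz hxz]
  -- the walk around `S \ Sz \ Sy`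
  have e3 : x :: (leg K y ny ++ K.par^[ny] y :: (b₂ ++ c₁) ++ K.par^[nz] z ::
      (leg K z nz).reverse) = x :: (y :: ((leg K (K.par y) ny ++ b₂ ++ c₁ ++
        (leg K (K.par z) nz).reverse) ++ [z])) := by
    rw [hrz]
    have : leg K y ny ++ K.par^[ny] y :: (b₂ ++ c₁) ++ ((leg K (K.par z) nz).reverse ++ [z]) =
      (leg K y ny ++ [K.par^[ny] y]) ++ (b₂ ++ c₁ ++ ((leg K (K.par z) nz).reverse ++ [z])) := by
      simp
    rw [this, hry]
    simp
  have e4 : cyc ((K.par^[ny] y :: b₂) ++ (c₁ ++ [K.par^[nz] z]) ++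
        ((leg K z nz).reverse ++ leg K y ny)) = cyc (y :: ((leg K (K.par y) ny ++ b₂ ++ c₁ ++
        (leg K (K.par z) nz).reverse) ++ [z])) := by
    have h5 : (K.par^[ny] y :: b₂) ++ (c₁ ++ [K.par^[nz] z]) ++
        ((leg K z nz).reverse ++ leg K y ny) = ([K.par^[ny] y] ++ (b₂ ++ c₁ ++
          (K.par^[nz] z :: (leg K z nz).reverse))) ++ leg K y ny := by simp
    rw [h5, cyc_rotate, ← List.append_assoc, hry, hrz]
    congr 1
    simp
  rw [e3, e4]
  generalize leg K (K.par y) ny ++ b₂ ++ c₁ ++ (leg K (K.par z) nz).reverse = M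
  have e5 : cyc (x :: (y :: (M ++ [z]))) = edg x y + (pth (y :: (M ++ [z])) + edg z x) := by
    rw [cyc_cons]
    have : x :: (y :: (M ++ [z]) ++ [x]) = x :: y :: (M ++ z :: [x]) := by simp
    rw [this, pth_cons]
    have h6 : y :: (M ++ z :: [x]) = (y :: M) ++ z :: [x] := by simp
    rw [h6, pth_append, pth_pair]
    rfl
  have e6 : cyc (y :: (M ++ [z])) = pth (y :: (M ++ [z])) + edg z y := by
    rw [cyc_cons]
    have h6 : y :: (M ++ [z] ++ [y]) = (y :: M) ++ z :: [y] := by simp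
    rw [h6, pth_append, pth_pair]
    rfl
  rw [e5, e6, edg_comm z y]
  funext u v
  simp only [Pi.add_apply]
  have q1 := z2 (edg x y u v)
  have q2 := z2 (edg z x u v)
  calc _ = (edg x y u v + edg x y u v) + (edg z x u v + edg z x u v) +
        (pth (y :: (M ++ [z])) u v + edg y z u v) := by ring
    _ = _ := by rw [q1, q2]; ring

end

end Pool.Agent.Helper80.Stk
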