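import Pool.Agent.Helper80.Stack.Split

set_option autoImplicit false

/-!
# Splitting a region: the main statement
-/

namespace Pool.Agent.Helper80.Stk

open Classical

variable {W Tr : Type} [Fintype W] [Fintype Tr] {K : SC W Tr}

/-- The colour of the end of the leg of `v`. -/
noncomputable def hitCol (K : SC W Tr) (l a b : List W) (v : W) : Fin 3 :=
  if h : ∃ n, K.par^[n] v ∈ l then
    (if K.par^[Nat.find h] v ∈ a then 0 else if K.par^[Nat.find h] v ∈ b then 1 else 2) else 0

lemma hitCol_eq {S : Finset Tr} {l a b : List W} {v : W} {n : ℕ} (h : LegTo K S l v n) :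
    hitCol K l a b v = if K.par^[n] v ∈ a then 0 else if K.par^[n] v ∈ b then 1 else 2 := by
  have h1 : ∃ n, K.par^[n] v ∈ l := ⟨n, h.hit⟩
  have h2 : Nat.find h1 = n := (Nat.find_eq_iff h1).mpr ⟨h.hit, fun m hm => h.out m hm⟩
  unfold hitCol
  rw [dif_pos h1, h2]

lemma hitCol_self {l a b : List W} {v : W} (h : v ∈ l) :
    hitCol K l a b v = if v ∈ a then 0 else if v ∈ b then 1 else 2 := by
  have h1 : ∃ n, K.par^[n] v ∈ l := ⟨0, h⟩
  have h2 : Nat.find h1 = 0 := (Nat.find_eq_zero h1).mpr h
  unfold hitCol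
  rw [dif_pos h1, h2]
  rfl

lemma leg_length (v : W) (n : ℕ) : (leg K v n).length = n := by
  unfold leg; simp

theorem pf_Split (hT : StmtTheta) (hSp : StmtSperner) : StmtSplit := by
  intro W Tr _ _ K S a b c hR hS
  have hnd := hR.nodup
  have hdab : ∀ v ∈ a, v ∉ b := by
    intro v h1 h2
    have := (List.nodup_append.mp (List.nodup_append.mp hnd).1).2.2
    exact this v h1 v h2 rfl
  have hdc : ∀ v ∈ c, v ∉ a ∧ v ∉ b := by
    intro v h1
    have := (List.nodup_append.mp hnd).2.2
    exact ⟨fun h2 => this v (List.mem_append_left _ h2) v h1 rfl,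
      fun h2 => this v (List.mem_append_right _ h2) v h1 rfl⟩
  -- a three-coloured triangle
  obtain ⟨τ, hτ, x, hx, y, hy, z, hz, fx, fy, fz⟩ := hSp W Tr K.vt S a b c
    (hitCol K (a ++ b ++ c) a b) K.card3 hnd hR.ha hR.hb hR.hc hR.bd
    (fun v hv => by rw [hitCol_self (by simp [hv])]; simp [hv])
    (fun v hv => by
      rw [hitCol_self (by simp [hv])]
      have : v ∉ a := fun h => hdab v h hv
      simp [hv, this])
    (fun v hv => by
      rw [hitCol_self (by simp [hv])]
      simp [(hdc v hv).1, (hdc v hv).2])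
  obtain ⟨nx, lx⟩ := legTo_of K hR.t0 hR.bd ⟨τ, hτ, hx⟩
  obtain ⟨ny, ly⟩ := legTo_of K hR.t0 hR.bd ⟨τ, hτ, hy⟩
  obtain ⟨nz, lz⟩ := legTo_of K hR.t0 hR.bd ⟨τ, hτ, hz⟩
  have hxy : x ≠ y := by rintro rfl; rw [fx] at fy; exact absurd fy (by decide)
  have hyz : y ≠ z := by rintro rfl; rw [fy] at fz; exact absurd fz (by decide)
  have hxz : x ≠ z := by rintro rfl; rw [fx] at fz; exact absurd fz (by decide)
  rw [hitCol_eq lx] at fx
  rw [hitCol_eq ly] at fy
  rw [hitCol_eq lz] at fz
  have hXa : K.par^[nx] x ∈ a := by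
    by_contra h
    rw [if_neg h] at fx
    split_ifs at fx <;> exact absurd fx (by decide)
  have hYb : K.par^[ny] y ∈ b := by
    by_contra h
    rw [if_neg h] at fy
    split_ifs at fy <;> exact absurd fy (by decide)
  have hZc : K.par^[nz] z ∈ c := by
    have h1 : K.par^[nz] z ∉ a := by
      intro h; rw [if_pos h] at fz; exact absurd fz (by decide)
    have h2 : K.par^[nz] z ∉ b := by
      intro h; rw [if_neg h1, if_pos h] at fz; exact absurd fz (by decide)
    have := lz.hit
    simp only [List.mem_append] at this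
    tauto
  obtain ⟨a₁, a₂, ha⟩ := List.append_of_mem hXa
  obtain ⟨b₁, b₂, hb⟩ := List.append_of_mem hYb
  obtain ⟨c₁, c₂, hc⟩ := List.append_of_mem hZc
  have hvτ : K.vt τ = {x, y, z} := by
    symm
    apply Finset.eq_of_subset_of_card_le
    · intro w hw
      simp only [Finset.mem_insert, Finset.mem_singleton] at hw
      rcases hw with rfl | rfl | rfl <;> assumption
    · rw [K.card3, Finset.card_eq_three.mpr ⟨x, y, z, hxy, hxz, hyz, rfl⟩]
  have hD : SplitData K S a₁ a₂ b₁ b₂ c₁ c₂ τ x y z nx ny nz := by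
    rw [ha, hb, hc] at hnd lx ly lz
    have hbd := hR.bd
    rw [ha, hb, hc] at hbd
    exact ⟨hR.t0, hnd, hbd, hτ, hvτ, lx, ly, lz⟩
  obtain ⟨Sz, hSz, bz, bz', hτz⟩ := hD.step1 hT
  obtain ⟨Sx, Sy, hSy, hSx, hτy, by', bx⟩ := hD.step2 hT hxy hyz hxz hSz bz' hτz
  have hm := List.nodup_iff_count_le_one.mp hD.master
  set LX := leg K x nx with hLX
  set LY := leg K y ny with hLY
  set LZ := leg K z nz with hLZ
  have lenX : LX.length = nx := leg_length x nx
  have lenY : LY.length = ny := leg_length y ny
  have lenZ : LZ.length = nz := leg_length z nz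
  -- disjointness
  have dxy : Disjoint Sx Sy := by
    rw [Finset.disjoint_left]; intro t ht; rw [hSx] at ht
    simp only [Finset.mem_sdiff] at ht; tauto
  have dxz : Disjoint Sx Sz := by
    rw [Finset.disjoint_left]; intro t ht; rw [hSx] at ht
    simp only [Finset.mem_sdiff] at ht; tauto
  have dyz : Disjoint Sy Sz := by
    rw [Finset.disjoint_left]; intro t ht
    have := hSy ht
    simp only [Finset.mem_sdiff] at this; tauto
  have sSy : Sy ⊆ S := fun t ht => (Finset.mem_sdiff.mp (hSy ht)).1
  have sSx : Sx ⊆ S := by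
    rw [hSx]; intro t ht; simp only [Finset.mem_sdiff] at ht; exact ht.1.1.1
  have hτx : τ ∉ Sx := by rw [hSx]; simp
  -- the boundary walks
  have ndx : ((K.par^[ny] y :: b₂) ++ (c₁ ++ [K.par^[nz] z]) ++ (LZ.reverse ++ LY)).Nodup := by
    rw [List.nodup_iff_count_le_one]; intro w; have := hm w
    simp only [List.count_append, List.count_cons, List.count_reverse, List.count_nil] at this ⊢
    omega
  have ndy : ((K.par^[nz] z :: c₂) ++ (a₁ ++ [K.par^[nx] x]) ++ (LX.reverse ++ LZ)).Nodup := by
    rw [List.nodup_iff_count_le_one]; intro w; have := hm w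
    simp only [List.count_append, List.count_cons, List.count_reverse, List.count_nil] at this ⊢
    omega
  have ndz : ((K.par^[nx] x :: a₂) ++ (b₁ ++ [K.par^[ny] y]) ++ (LY.reverse ++ LX)).Nodup := by
    rw [List.nodup_iff_count_le_one]; intro w; have := hm w
    simp only [List.count_append, List.count_cons, List.count_reverse, List.count_nil] at this ⊢
    omega
  let R : Fin 3 → Finset Tr := ![Sx, Sy, Sz]
  have hABC : ∀ i, ∃ A B C : List W, (R i).Nonempty → Reg K (R i) A B C ∧
      ∀ X ∈ [A, B, C], (∀ v ∈ X, v ∈ a) ∨ (∀ v ∈ X, v ∈ b) ∨ (∀ v ∈ X, v ∈ c) ∨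
        (∀ v ∈ X, v ∈ (LX ++ (LY ++ LZ)).toFinset) := by
    intro i
    by_cases hne : (R i).Nonempty
    swap
    · exact ⟨[], [], [], fun h => absurd h hne⟩
    fin_cases i
    · obtain ⟨A, B, C, h1, h2⟩ := rearc (fun h => hR.t0 (sSx h)) bx ndx (by simp) (by simp) hne
      refine ⟨A, B, C, fun _ => ⟨h1, fun X hX => ?_⟩⟩
      rcases h2 X hX with h3 | h3 | h3
      · right; left; intro v hv; have := h3 hv; rw [hb]; simp at this ⊢; tauto
      · right; right; left; intro v hv; have := h3 hv; rw [hc]; simp at this ⊢; tauto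
      · right; right; right; intro v hv; have := h3 hv; simp at this ⊢; tauto
    · obtain ⟨A, B, C, h1, h2⟩ := rearc (fun h => hR.t0 (sSy h)) by' ndy (by simp) (by simp) hne
      refine ⟨A, B, C, fun _ => ⟨h1, fun X hX => ?_⟩⟩
      rcases h2 X hX with h3 | h3 | h3
      · right; right; left; intro v hv; have := h3 hv; rw [hc]; simp at this ⊢; tauto
      · left; intro v hv; have := h3 hv; rw [ha]; simp at this ⊢; tauto
      · right; right; right; intro v hv; have := h3 hv; simp at this ⊢; tauto
    · obtain ⟨A, B, C, h1, h2⟩ := rearc (fun h => hR.t0 (hSz h)) bz ndz (by simp) (by simp) hne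
      refine ⟨A, B, C, fun _ => ⟨h1, fun X hX => ?_⟩⟩
      rcases h2 X hX with h3 | h3 | h3
      · left; intro v hv; have := h3 hv; rw [ha]; simp at this ⊢; tauto
      · right; left; intro v hv; have := h3 hv; rw [hb]; simp at this ⊢; tauto
      · right; right; right; intro v hv; have := h3 hv; simp at this ⊢; tauto
  choose A B C hABC' using hABC
  -- boundary triangles at the leg vertices
  have bdx : ∀ v, v ∈ LY ∨ v ∈ LZ → (∃ t, v ∈ K.vt t ∧ t ∈ Sx) ∧ (∃ t, v ∈ K.vt t ∧ t ∉ Sx) := by
    intro v hv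
    apply K.boundary bx ndx
    · have : 0 < LY.length ∨ 0 < LZ.length := hv.imp List.length_pos_of_mem List.length_pos_of_mem
      simp only [List.length_append, List.length_cons, List.length_reverse, List.length_nil]
      omega
    · simp only [List.mem_append, List.mem_reverse]; tauto
  have bdy : ∀ v, v ∈ LX ∨ v ∈ LZ → (∃ t, v ∈ K.vt t ∧ t ∈ Sy) ∧ (∃ t, v ∈ K.vt t ∧ t ∉ Sy) := by
    intro v hv
    apply K.boundary by' ndy
    · have : 0 < LX.length ∨ 0 < LZ.length := hv.imp List.length_pos_of_mem List.length_pos_of_mem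
      simp only [List.length_append, List.length_cons, List.length_reverse, List.length_nil]
      omega
    · simp only [List.mem_append, List.mem_reverse]; tauto
  have bdz : ∀ v, v ∈ LX ∨ v ∈ LY → (∃ t, v ∈ K.vt t ∧ t ∈ Sz) ∧ (∃ t, v ∈ K.vt t ∧ t ∉ Sz) := by
    intro v hv
    apply K.boundary bz ndz
    · have : 0 < LX.length ∨ 0 < LY.length := hv.imp List.length_pos_of_mem List.length_pos_of_mem
      simp only [List.length_append, List.length_cons, List.length_reverse, List.length_nil]
      omega
    · simp only [List.mem_append, List.mem_reverse]; tauto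
  refine ⟨τ, (LX ++ (LY ++ LZ)).toFinset, R, A, B, C, hτ, ?_, ?_, ?_, ?_, ?_, ?_, ?_, ?_, ?_,
    hABC'⟩
  · intro t ht
    by_cases h1 : t = τ
    · exact Or.inl h1
    · right
      by_cases h2 : t ∈ Sz
      · exact ⟨2, h2⟩
      · by_cases h3 : t ∈ Sy
        · exact ⟨1, h3⟩
        · refine ⟨0, ?_⟩
          change t ∈ Sx
          rw [hSx]
          simp only [Finset.mem_sdiff, Finset.mem_singleton]
          exact ⟨⟨⟨ht, h2⟩, h3⟩, h1⟩
  · intro i
    fin_cases i
    · exact sSx
    · exact sSy
    · exact hSz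
  · intro i
    fin_cases i
    · exact hτx
    · exact hτy
    · exact hτz
  · intro i i' hii
    fin_cases i <;> fin_cases i'
    · exact absurd rfl hii
    · exact dxy
    · exact dxz
    · exact dxy.symm
    · exact absurd rfl hii
    · exact dyz
    · exact dxz.symm
    · exact dyz.symm
    · exact absurd rfl hii
  · intro v hv t ht
    simp only [List.mem_toFinset, List.mem_append] at hv
    rcases hv with hv | hv | hv
    · obtain ⟨i, hi, rfl⟩ := (mem_leg K).mp hv
      exact lx.int i hi t ht
    · obtain ⟨i, hi, rfl⟩ := (mem_leg K).mp hv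
      exact ly.int i hi t ht
    · obtain ⟨i, hi, rfl⟩ := (mem_leg K).mp hv
      exact lz.int i hi t ht
  · intro v hv
    simp only [List.mem_toFinset, List.mem_append (s := LX), List.mem_append (s := LY)] at hv
    rcases hv with hv | hv | hv
    · exact lx.notMem hv
    · exact ly.notMem hv
    · exact lz.notMem hv
  · intro v hv i
    simp only [List.mem_toFinset, List.mem_append] at hv
    fin_cases i
    · change ∃ t, v ∈ K.vt t ∧ t ∉ Sx
      rcases hv with hv | hv | hv
      · obtain ⟨⟨t, h1, h2⟩, _⟩ := bdy v (Or.inl hv)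
        exact ⟨t, h1, fun h3 => Finset.disjoint_left.mp dxy h3 h2⟩
      · exact (bdx v (Or.inl hv)).2
      · exact (bdx v (Or.inr hv)).2
    · change ∃ t, v ∈ K.vt t ∧ t ∉ Sy
      rcases hv with hv | hv | hv
      · exact (bdy v (Or.inl hv)).2
      · obtain ⟨⟨t, h1, h2⟩, _⟩ := bdx v (Or.inl hv)
        exact ⟨t, h1, fun h3 => Finset.disjoint_left.mp dxy h2 h3⟩
      · exact (bdy v (Or.inr hv)).2
    · change ∃ t, v ∈ K.vt t ∧ t ∉ Sz
      rcases hv with hv | hv | hv
      · exact (bdz v (Or.inl hv)).2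
      · exact (bdz v (Or.inr hv)).2
      · obtain ⟨⟨t, h1, h2⟩, _⟩ := bdx v (Or.inr hv)
        exact ⟨t, h1, fun h3 => Finset.disjoint_left.mp dxz h2 h3⟩
  · intro h
    have e : ((LX ++ (LY ++ LZ)).toFinset).filter (fun v => K.ht v = h) =
        (LX.toFinset.filter (fun v => K.ht v = h)) ∪ ((LY.toFinset.filter (fun v => K.ht v = h)) ∪
          (LZ.toFinset.filter (fun v => K.ht v = h))) := by
      ext v
      simp only [Finset.mem_filter, List.mem_toFinset, List.mem_append, Finset.mem_union]
      tauto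
    rw [e]
    have h1 := lx.card_le h
    have h2 := ly.card_le h
    have h3 := lz.card_le h
    rw [← hLX] at h1
    rw [← hLY] at h2
    rw [← hLZ] at h3
    have h4 := Finset.card_union_le (LX.toFinset.filter (fun v => K.ht v = h))
      ((LY.toFinset.filter (fun v => K.ht v = h)) ∪ (LZ.toFinset.filter (fun v => K.ht v = h)))
    have h5 := Finset.card_union_le (LY.toFinset.filter (fun v => K.ht v = h))
      (LZ.toFinset.filter (fun v => K.ht v = h))
    omega
  · intro v hv
    rw [hvτ] at hv
    simp only [Finset.mem_insert, Finset.mem_singleton] at hv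
    have key : ∀ (v : W) (n : ℕ), LegTo K S (a ++ b ++ c) v n →
        v ∈ a ++ b ++ c ∨ v ∈ leg K v n := by
      intro v n hl
      cases n with
      | zero => exact Or.inl hl.hit
      | succ n => exact Or.inr ((mem_leg K).mpr ⟨0, Nat.succ_pos n, rfl⟩)
    rcases hv with rfl | rfl | rfl
    · rcases key _ _ lx with h | h
      · exact Or.inl h
      · right; simp only [List.mem_toFinset, List.mem_append]; exact Or.inl h
    · rcases key _ _ ly with h | h
      · exact Or.inl h
      · right; simp only [List.mem_toFinset, List.mem_append]; exact Or.inr (Or.inl h)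
    · rcases key _ _ lz with h | h
      · exact Or.inl h
      · right; simp only [List.mem_toFinset, List.mem_append]; exact Or.inr (Or.inr h)

end Pool.Agent.Helper80.Stk
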