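import Pool.Agent.Helper80.Stack.Goals

set_option autoImplicit false

/-!
# The triangulated sphere of a plane map
-/

namespace Pool.Agent.Helper80.Stk

open Classical

noncomputable section

variable {V D : Type} [Fintype D] (P : PMap V D)

lemma mem_triVt0 (d : D) (w : TW P) : w ∈ triVt P (d, 0) ↔
    w = wV P (P.o d) ∨ w = wV P (P.o (P.α d)) ∨ w = wD P (P.φ d) := by
  unfold triVt
  simp [Finset.mem_insert, Finset.mem_singleton]

lemma mem_triVt1 (d : D) (w : TW P) : w ∈ triVt P (d, 1) ↔
    w = wV P (P.o d) ∨ w = wD P (P.φ d) ∨ w = wD P d := by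
  unfold triVt
  simp [Finset.mem_insert, Finset.mem_singleton]

lemma mem_triVt2 (d : D) (w : TW P) : w ∈ triVt P (d, 2) ↔
    w = wD P d ∨ w = wD P (P.φ d) ∨ w = wF P d := by
  unfold triVt
  simp [Finset.mem_insert, Finset.mem_singleton]

/-- The parent function. -/
def triPar (r : V) (g : V → D) : TW P → TW P
  | Sum.inl v => if v = r then wV P v else wV P (P.o (P.α (g v)))
  | Sum.inr (Sum.inl d) => wV P (P.o d)
  | Sum.inr (Sum.inr f) => wD P f.out

/-- The heights. -/
def triHt (j : V → ℕ) : TW P → ℕ
  | Sum.inl v => j v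
  | Sum.inr (Sum.inl d) => j (P.o d) + 1
  | Sum.inr (Sum.inr f) => j (P.o f.out) + 2

theorem pf_Tri (hE : StmtTriEdges) (hF : StmtTriFill) (hU : StmtTriUniq) (hL : StmtTriLink) :
    StmtTri := by
  intro V D _ _ P r j hbfs
  obtain ⟨hE1, hE2, hE3⟩ := hE V D P
  have htwo : ∀ (u v : TW P) (_ : DecidablePred (fun t => u ∈ triVt P t ∧ v ∈ triVt P t)),
      u ≠ v → (Finset.univ.filter (fun t => u ∈ triVt P t ∧ v ∈ triVt P t)).card = 0 ∨
      (Finset.univ.filter (fun t => u ∈ triVt P t ∧ v ∈ triVt P t)).card = 2 := by
    intro u v _ huv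
    by_cases h : ∃ s, u ∈ triVt P s ∧ v ∈ triVt P s
    · right
      obtain ⟨s, h1, h2⟩ := h
      obtain ⟨t, t', h3⟩ := hE3 u v s huv h1 h2
      have h4 : t ≠ t' ∧ ∀ s, (u ∈ triVt P s ∧ v ∈ triVt P s) ↔ (s = t ∨ s = t') := by
        rcases h3 with h3 | h3
        · exact ⟨(hE2 _ _ _ _ h3).1, (hE2 _ _ _ _ h3).2.2⟩
        · refine ⟨(hE2 _ _ _ _ h3).1, fun s => ?_⟩
          rw [and_comm]
          exact (hE2 _ _ _ _ h3).2.2 s
      have h5 : Finset.univ.filter (fun t => u ∈ triVt P t ∧ v ∈ triVt P t) = {t, t'} := by
        ext s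
        simp only [Finset.mem_filter, Finset.mem_univ, true_and, Finset.mem_insert,
          Finset.mem_singleton]
        exact h4.2 s
      rw [h5, Finset.card_pair h4.1]
    · left
      rw [Finset.card_eq_zero, Finset.filter_eq_empty_iff]
      intro t _ ht
      exact h ⟨t, ht⟩
  have huniv : bd (triVt P) (Finset.univ : Finset (D × Fin 3)) = 0 := by
    funext u v
    by_cases huv : u = v
    · subst huv; exact bd_diag _ _ _
    · unfold bd
      rw [if_neg huv]
      rcases htwo u v _ huv with h2 | h2 <;> rw [h2] <;> rfl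
  obtain ⟨d0, hd0⟩ := P.surj r
  have hg : ∀ v : V, ∃ d, v ≠ r → P.o d = v ∧ j (P.o (P.α d)) < j v := by
    intro v
    by_cases hv : v = r
    · exact ⟨d0, fun h => absurd hv h⟩
    · obtain ⟨d, hd⟩ := hbfs v hv
      exact ⟨d, fun _ => hd⟩
  choose g hg using hg
  have hr : wV P r ∈ triVt P (d0, 0) := by
    rw [mem_triVt0]; left; rw [hd0]
  let K : SC (TW P) (D × Fin 3) :=
    { vt := triVt P
      card3 := hE1
      two := fun u v huv => htwo u v _ huv
      t0 := (d0, 0)
      fill := by
        intro C h1 h2 h3 h4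
        obtain ⟨R, hR⟩ := hF V D P C h1 h2 h3 h4
        by_cases h0 : (d0, (0 : Fin 3)) ∈ R
        · exact ⟨_, by simp [h0], (bd_sdiff (triVt P) (Finset.subset_univ R)).trans
            (by rw [huniv, hR, zero_add])⟩
        · exact ⟨R, h0, hR⟩
      uniq := by
        intro R h0 h1
        rcases hU V D P r j hbfs R h1 with h2 | h2
        · exact h2
        · rw [h2] at h0
          exact absurd (Finset.mem_univ _) h0
      link := hL V D P
      cov := by
        intro v
        rcases v with v | d | f
        · obtain ⟨d, hd⟩ := P.surj v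
          exact ⟨(d, 0), by rw [mem_triVt0]; left; rw [hd]⟩
        · exact ⟨(d, 1), by rw [mem_triVt1]; right; right; rfl⟩
        · refine ⟨(f.out, 2), ?_⟩
          rw [mem_triVt2]; right; right
          change _ = Sum.inr (Sum.inr (Quotient.mk _ f.out))
          rw [Quotient.out_eq]
      par := triPar P r g
      ht := triHt P j
      par_ht := by
        intro v hv
        rcases v with v | d | f
        · have hvr : v ≠ r := by
            rintro rfl; exact hv hr
          unfold triPar triHt
          simp only [hvr, if_false]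
          exact (hg v hvr).2
        · unfold triPar triHt
          simp
        · unfold triPar triHt
          simp
      par_edge := by
        intro v hv
        rcases v with v | d | f
        · have hvr : v ≠ r := by
            rintro rfl; exact hv hr
          refine ⟨(g v, 0), ?_, ?_⟩
          · rw [mem_triVt0]; left; rw [(hg v hvr).1]
          · rw [mem_triVt0]; right; left
            unfold triPar
            simp only [hvr, if_false]
        · refine ⟨(d, 1), ?_, ?_⟩
          · rw [mem_triVt1]; right; right; rfl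
          · rw [mem_triVt1]; left; rfl
        · refine ⟨(f.out, 2), ?_, ?_⟩
          · rw [mem_triVt2]; right; right
            change _ = Sum.inr (Sum.inr (Quotient.mk _ f.out))
            rw [Quotient.out_eq]
          · rw [mem_triVt2]; left; rfl }
  refine ⟨TW P, D × Fin 3, inferInstance, inferInstance, K, wV P, ?_, ?_, ?_⟩
  · intro v w h
    exact Sum.inl_injective h
  · intro v; rfl
  · intro d
    refine ⟨(d, 0), ?_, ?_⟩
    · change _ ∈ triVt P (d, 0)
      rw [mem_triVt0]; left; rfl
    · change _ ∈ triVt P (d, 0)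
      rw [mem_triVt0]; right; left; rfl

end

end Pool.Agent.Helper80.Stk
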